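import Mathlib

/-!
A divergence inequality in the region below a `C¹` graph.
-/

open Set Topology Filter MeasureTheory

namespace Pool.Agent.H29.MEMS

/-- region below the graph -/
def Low (u : ℝ → ℝ) : Set (ℝ × ℝ) := {p | -1 < p.1 ∧ p.1 < 1 ∧ p.2 < u p.1}

/-- region below the graph, with the graph -/
def CLow (u : ℝ → ℝ) : Set (ℝ × ℝ) := {p | -1 < p.1 ∧ p.1 < 1 ∧ p.2 ≤ u p.1}

lemma isOpen_Low {v : ℝ → ℝ} (hv : ContinuousOn v (Icc (-1) 1)) : IsOpen (Low v) := by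
  have h1 : IsOpen {p : ℝ × ℝ | p.1 ∈ Ioo (-1:ℝ) 1} := isOpen_Ioo.preimage continuous_fst
  have h2 : ContinuousOn (fun p : ℝ × ℝ => v p.1 - p.2) {p : ℝ × ℝ | p.1 ∈ Ioo (-1:ℝ) 1} := by
    refine ContinuousOn.sub ?_ continuousOn_snd
    exact hv.comp continuousOn_fst (fun p hp => ⟨hp.1.le, hp.2.le⟩)
  have h3 := h2.isOpen_inter_preimage h1 (isOpen_Ioi (a := (0:ℝ)))
  have : Low v = ({p : ℝ × ℝ | p.1 ∈ Ioo (-1:ℝ) 1} ∩ (fun p : ℝ × ℝ => v p.1 - p.2) ⁻¹' Ioi 0) := by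
    ext p
    simp only [Low, mem_ofPred_eq, mem_inter_iff, mem_preimage, mem_Ioi, mem_Ioo, sub_pos]
    tauto
  rw [this]
  exact h3

section
variable {u : ℝ → ℝ} {F H : ℝ × ℝ → ℝ} {r z0 : ℝ}

lemma curve_cont (hu : ContDiffOn ℝ 1 u (Icc (-1) 1)) (hr1 : r < 1) :
    ContinuousOn (fun p : ℝ × ℝ => (p.1, u p.1 - p.2)) (Icc (-r) r ×ˢ (univ : Set ℝ)) := by
  have h1 : ContinuousOn (fun p : ℝ × ℝ => u p.1) (Icc (-r) r ×ˢ (univ : Set ℝ)) := by
    refine hu.continuousOn.comp continuousOn_fst ?_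
    intro p hp
    exact ⟨by linarith [hp.1.1], by linarith [hp.1.2]⟩
  exact continuousOn_fst.prodMk (h1.sub continuousOn_snd)

lemma deriv_cont (hu : ContDiffOn ℝ 1 u (Icc (-1) 1)) : ContinuousOn (deriv u) (Ioo (-1) 1) :=
  (hu.mono Ioo_subset_Icc_self).continuousOn_deriv_of_isOpen isOpen_Ioo (by norm_num)

lemma hasDeriv_u (hu : ContDiffOn ℝ 1 u (Icc (-1) 1)) {x : ℝ} (hx : x ∈ Ioo (-1:ℝ) 1) :
    HasDerivAt u (deriv u x) x := by
  have := (hu x (Ioo_subset_Icc_self hx)).contDiffAt (Icc_mem_nhds hx.1 hx.2)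
  exact (this.differentiableAt (by simp)).hasDerivAt

theorem divergence_ineq_pos (hu : ContDiffOn ℝ 1 u (Icc (-1) 1))
    (hr0 : 0 < r) (hr1 : r < 1)
    (hF : ContDiffOn ℝ 1 F (Low u)) (hH : ContDiffOn ℝ 1 H (Low u))
    (hside : ∀ p ∈ CLow u, r ≤ |p.1| → F p = 0)
    (hbot : ∀ p ∈ CLow u, p.2 ≤ z0 → F p = 0 ∧ H p = 0)
    (hdiv : ∀ p ∈ Low u, 0 ≤ fderiv ℝ F p (1, 0) + fderiv ℝ H p (0, 1)) {s1 : ℝ} (hs1 : 0 < s1) :
    0 ≤ ∫ x in (-r)..r, (H (x, u x - s1) - deriv u x * F (x, u x - s1)) := by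
  have hrr : -r ≤ r := by linarith
  have hsub : Icc (-r) r ⊆ Ioo (-1:ℝ) 1 := fun x hx => ⟨by linarith [hx.1], by linarith [hx.2]⟩
  -- choose the depth
  obtain ⟨C, hC⟩ := isCompact_Icc.bddAbove_image
    (hu.continuousOn.mono (hsub.trans Ioo_subset_Icc_self))
  obtain ⟨S, hS1, hS2⟩ : ∃ S : ℝ, s1 ≤ S ∧ C - S ≤ z0 :=
    ⟨max s1 (C - z0), le_max_left _ _, by linarith [le_max_right s1 (C - z0)]⟩
  have hO := isOpen_Low hu.continuousOn
  have hdF := hF.continuousOn_fderiv_of_isOpen hO (le_refl 1)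
  have hdH := hH.continuousOn_fderiv_of_isOpen hO (le_refl 1)
  have hmaps : ∀ p ∈ Icc (-r) r ×ˢ Icc s1 S, (p.1, u p.1 - p.2) ∈ Low u := by
    intro p hp
    have h1 := hsub hp.1
    exact ⟨h1.1, h1.2, by have := hp.2.1; simp only; linarith⟩
  have hcv : ContinuousOn (fun p : ℝ × ℝ => (p.1, u p.1 - p.2)) (Icc (-r) r ×ˢ Icc s1 S) :=
    (curve_cont hu hr1).mono (prod_mono_right (subset_univ _))
  have cF : ContinuousOn (fun p : ℝ × ℝ => fderiv ℝ F (p.1, u p.1 - p.2))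
      (Icc (-r) r ×ˢ Icc s1 S) := hdF.comp hcv hmaps
  have cH : ContinuousOn (fun p : ℝ × ℝ => fderiv ℝ H (p.1, u p.1 - p.2))
      (Icc (-r) r ×ˢ Icc s1 S) := hdH.comp hcv hmaps
  have cU : ContinuousOn (fun p : ℝ × ℝ => deriv u p.1) (Icc (-r) r ×ˢ Icc s1 S) :=
    (deriv_cont hu).comp continuousOn_fst (fun p hp => hsub hp.1)
  -- differentiability
  have dF : ∀ p ∈ Low u, HasFDerivAt F (fderiv ℝ F p) p := fun p hp =>
    (((hF p hp).contDiffAt (hO.mem_nhds hp)).differentiableAt (by simp)).hasFDerivAt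
  have dH : ∀ p ∈ Low u, HasFDerivAt H (fderiv ℝ H p) p := fun p hp =>
    (((hH p hp).contDiffAt (hO.mem_nhds hp)).differentiableAt (by simp)).hasFDerivAt
  let A : ℝ → ℝ → ℝ := fun x s => fderiv ℝ F (x, u x - s) (1, deriv u x)
  let B : ℝ → ℝ → ℝ := fun x s =>
    fderiv ℝ H (x, u x - s) (0, 1) - deriv u x * fderiv ℝ F (x, u x - s) (0, 1)
  have cA : ContinuousOn (Function.uncurry A) (Icc (-r) r ×ˢ Icc s1 S) := by
    have : ContinuousOn (fun p : ℝ × ℝ => ((1:ℝ), deriv u p.1)) (Icc (-r) r ×ˢ Icc s1 S) :=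
      continuousOn_const.prodMk cU
    exact cF.clm_apply this
  have cB : ContinuousOn (Function.uncurry B) (Icc (-r) r ×ˢ Icc s1 S) := by
    have h1 : ContinuousOn (fun p : ℝ × ℝ => fderiv ℝ H (p.1, u p.1 - p.2) (0, 1))
      (Icc (-r) r ×ˢ Icc s1 S) := cH.clm_apply continuousOn_const
    have h2 : ContinuousOn (fun p : ℝ × ℝ => fderiv ℝ F (p.1, u p.1 - p.2) (0, 1))
      (Icc (-r) r ×ˢ Icc s1 S) := cF.clm_apply continuousOn_const
    exact h1.sub (cU.mul h2)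
  -- slices
  have sliceX : ∀ {k : ℝ → ℝ → ℝ}, ContinuousOn (Function.uncurry k) (Icc (-r) r ×ˢ Icc s1 S) →
      ∀ s ∈ Icc s1 S, IntervalIntegrable (fun x => k x s) volume (-r) r := by
    intro k hk s hs
    apply ContinuousOn.intervalIntegrable
    rw [uIcc_of_le hrr]
    exact hk.comp (f := fun x : ℝ => (x, s)) (by fun_prop) (fun x hx => ⟨hx, hs⟩)
  have sliceS : ∀ {k : ℝ → ℝ → ℝ}, ContinuousOn (Function.uncurry k) (Icc (-r) r ×ˢ Icc s1 S) →
      ∀ x ∈ Icc (-r) r, IntervalIntegrable (fun s => k x s) volume s1 S := by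
    intro k hk x hx
    apply ContinuousOn.intervalIntegrable
    rw [uIcc_of_le hS1]
    exact hk.comp (f := fun s : ℝ => (x, s)) (by fun_prop) (fun s hs => ⟨hx, hs⟩)
  -- integral of `A` in `x`
  have iA : ∀ s ∈ Icc s1 S, ∫ x in (-r)..r, A x s = 0 := by
    intro s hs
    have hd : ∀ x ∈ uIcc (-r) r, HasDerivAt (fun x => F (x, u x - s)) (A x s) x := by
      intro x hx
      rw [uIcc_of_le hrr] at hx
      have h1 := dF _ (hmaps (x, s) ⟨hx, hs⟩)
      have h2 : HasDerivAt (fun x => (x, u x - s)) (1, deriv u x) x :=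
        (hasDerivAt_id x).prodMk ((hasDeriv_u hu (hsub hx)).sub_const s)
      exact h1.comp_hasDerivAt x h2
    rw [intervalIntegral.integral_eq_sub_of_hasDerivAt hd (sliceX cA s hs)]
    have m1 : (r, u r - s) ∈ CLow u := by
      have := hmaps (r, s) ⟨⟨hrr, le_refl r⟩, hs⟩
      exact ⟨this.1, this.2.1, this.2.2.le⟩
    have m2 : (-r, u (-r) - s) ∈ CLow u := by
      have := hmaps (-r, s) ⟨⟨le_refl _, hrr⟩, hs⟩
      exact ⟨this.1, this.2.1, this.2.2.le⟩
    rw [hside _ m1 (le_abs_self r), hside _ m2 (by simp only [abs_neg]; exact le_abs_self r)]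
    simp
  -- integral of `B` in `s`
  have iB : ∀ x ∈ Icc (-r) r, ∫ s in s1..S, B x s
      = H (x, u x - s1) - deriv u x * F (x, u x - s1) := by
    intro x hx
    have hd : ∀ s ∈ uIcc s1 S, HasDerivAt
        (fun s => -(H (x, u x - s) - deriv u x * F (x, u x - s))) (B x s) s := by
      intro s hs
      rw [uIcc_of_le hS1] at hs
      have h1 := dF _ (hmaps (x, s) ⟨hx, hs⟩)
      have h1' := dH _ (hmaps (x, s) ⟨hx, hs⟩)
      have h2 : HasDerivAt (fun s => (x, u x - s)) ((0:ℝ), (-1:ℝ)) s :=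
        (hasDerivAt_const s x).prodMk ((hasDerivAt_id s).const_sub (u x))
      have h3 := h1.comp_hasDerivAt s h2
      have h4 := h1'.comp_hasDerivAt s h2
      have h5 := (h4.sub (h3.const_mul (deriv u x))).neg
      refine h5.congr_deriv ?_
      have e1 : ((0:ℝ), (-1:ℝ)) = (-1:ℝ) • ((0:ℝ), (1:ℝ)) := by simp
      rw [e1, map_smul, map_smul]
      simp only [B, smul_eq_mul]
      ring
    rw [intervalIntegral.integral_eq_sub_of_hasDerivAt hd (sliceS cB x hx)]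
    have m1 : (x, u x - S) ∈ CLow u := by
      have := hmaps (x, S) ⟨hx, ⟨hS1, le_refl S⟩⟩
      exact ⟨this.1, this.2.1, this.2.2.le⟩
    have hux : u x ≤ C := hC ⟨x, hx, rfl⟩
    have m2 := hbot _ m1 (by simp only; linarith)
    rw [m2.1, m2.2]
    ring
  -- combine
  have hint : ∀ {k : ℝ → ℝ → ℝ}, ContinuousOn (Function.uncurry k) (Icc (-r) r ×ˢ Icc s1 S) →
      IntegrableOn (Function.uncurry k) (uIoc (-r) r ×ˢ uIoc s1 S) := by
    intro k hk
    have h1 := hk.integrableOn_compact (μ := volume) (isCompact_Icc.prod isCompact_Icc)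
    refine h1.mono_set ?_
    rw [uIoc_of_le hrr, uIoc_of_le hS1]
    exact prod_mono Ioc_subset_Icc_self Ioc_subset_Icc_self
  have e1 : ∫ x in (-r)..r, (H (x, u x - s1) - deriv u x * F (x, u x - s1))
      = ∫ x in (-r)..r, ∫ s in s1..S, B x s := by
    apply intervalIntegral.integral_congr
    intro x hx
    rw [uIcc_of_le hrr] at hx
    exact (iB x hx).symm
  have e2 : ∫ x in (-r)..r, ∫ s in s1..S, A x s = 0 := by
    rw [intervalIntegral_intervalIntegral_swap (hint cA)]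
    have : ∫ s in s1..S, ∫ x in (-r)..r, A x s = ∫ s in s1..S, (0:ℝ) := by
      apply intervalIntegral.integral_congr
      intro s hs
      rw [uIcc_of_le hS1] at hs
      exact iA s hs
    rw [this]; simp
  have oc : ∀ {k : ℝ → ℝ → ℝ}, ContinuousOn (Function.uncurry k) (Icc (-r) r ×ˢ Icc s1 S) →
      IntervalIntegrable (fun x => ∫ s in s1..S, k x s) volume (-r) r := by
    intro k hk
    have h1 := hint hk
    rw [IntegrableOn, Measure.volume_eq_prod, ← Measure.prod_restrict] at h1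
    have h2 := h1.integral_prod_left
    rw [intervalIntegrable_iff]
    have h3 : (fun x => ∫ s in s1..S, k x s) = fun x => ∫ s in uIoc s1 S, k x s := by
      ext x
      rw [intervalIntegral.integral_of_le hS1, uIoc_of_le hS1]
    rw [h3]
    exact h2
  have e3 : ∫ x in (-r)..r, ∫ s in s1..S, (A x s + B x s)
      = (∫ x in (-r)..r, ∫ s in s1..S, A x s) + ∫ x in (-r)..r, ∫ s in s1..S, B x s := by
    rw [← intervalIntegral.integral_add (oc cA) (oc cB)]
    apply intervalIntegral.integral_congr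
    intro x hx
    rw [uIcc_of_le hrr] at hx
    exact intervalIntegral.integral_add (sliceS cA x hx) (sliceS cB x hx)
  have e4 : 0 ≤ ∫ x in (-r)..r, ∫ s in s1..S, (A x s + B x s) := by
    apply intervalIntegral.integral_nonneg hrr
    intro x hx
    apply intervalIntegral.integral_nonneg hS1
    intro s hs
    have h1 := hdiv _ (hmaps (x, s) ⟨hx, hs⟩)
    have e5 : ((1:ℝ), deriv u x) = (1, 0) + deriv u x • ((0:ℝ), (1:ℝ)) := by simp
    simp only [A, B]
    rw [e5, map_add, map_smul, smul_eq_mul]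
    simp only at h1
    linarith
  rw [e1]
  linarith

theorem divergence_ineq (hu : ContDiffOn ℝ 1 u (Icc (-1) 1))
    (hr0 : 0 < r) (hr1 : r < 1)
    (hF : ContDiffOn ℝ 1 F (Low u)) (hH : ContDiffOn ℝ 1 H (Low u))
    (hFc : ContinuousOn F (CLow u)) (hHc : ContinuousOn H (CLow u))
    (hside : ∀ p ∈ CLow u, r ≤ |p.1| → F p = 0)
    (hbot : ∀ p ∈ CLow u, p.2 ≤ z0 → F p = 0 ∧ H p = 0)
    (hdiv : ∀ p ∈ Low u, 0 ≤ fderiv ℝ F p (1, 0) + fderiv ℝ H p (0, 1)) :
    0 ≤ ∫ x in (-r)..r, (H (x, u x) - deriv u x * F (x, u x)) := by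
  have hrr : -r ≤ r := by linarith
  have hsub : Icc (-r) r ⊆ Ioo (-1:ℝ) 1 := fun x hx => ⟨by linarith [hx.1], by linarith [hx.2]⟩
  have hmaps : ∀ p ∈ Icc (-r) r ×ˢ Icc (0:ℝ) 1, (p.1, u p.1 - p.2) ∈ CLow u := by
    intro p hp
    have h1 := hsub hp.1
    exact ⟨h1.1, h1.2, by have := hp.2.1; simp only; linarith⟩
  have hcv : ContinuousOn (fun p : ℝ × ℝ => (p.1, u p.1 - p.2)) (Icc (-r) r ×ˢ Icc (0:ℝ) 1) :=
    (curve_cont hu hr1).mono (prod_mono_right (subset_univ _))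
  have cU : ContinuousOn (fun p : ℝ × ℝ => deriv u p.1) (Icc (-r) r ×ˢ Icc (0:ℝ) 1) :=
    (deriv_cont hu).comp continuousOn_fst (fun p hp => hsub hp.1)
  have cK : ContinuousOn (fun p : ℝ × ℝ => H (p.1, u p.1 - p.2) - deriv u p.1 * F (p.1, u p.1 - p.2))
      (Icc (-r) r ×ˢ Icc (0:ℝ) 1) :=
    (hHc.comp hcv hmaps).sub (cU.mul (hFc.comp hcv hmaps))
  obtain ⟨C, hC⟩ := (isCompact_Icc.prod isCompact_Icc).exists_bound_of_continuousOn cK
  have htend : Tendsto (fun s : ℝ => ∫ x in (-r)..r, (H (x, u x - s) - deriv u x * F (x, u x - s)))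
      (𝓝[>] 0) (𝓝 (∫ x in (-r)..r, (H (x, u x - 0) - deriv u x * F (x, u x - 0)))) := by
    apply intervalIntegral.tendsto_integral_filter_of_dominated_convergence (fun _ => C)
    · filter_upwards [Ioc_mem_nhdsGT (zero_lt_one' ℝ)] with s hs
      have h1 : ContinuousOn (fun x => H (x, u x - s) - deriv u x * F (x, u x - s))
          (uIcc (-r) r) := by
        rw [uIcc_of_le hrr]
        exact cK.comp (f := fun x : ℝ => (x, s)) (by fun_prop) (fun x hx => ⟨hx, hs.1.le, hs.2⟩)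
      exact (h1.mono uIoc_subset_uIcc).aestronglyMeasurable measurableSet_uIoc
    · filter_upwards [Ioc_mem_nhdsGT (zero_lt_one' ℝ)] with s hs
      filter_upwards with x hx
      rw [uIoc_of_le hrr] at hx
      exact hC (x, s) ⟨⟨hx.1.le, hx.2⟩, hs.1.le, hs.2⟩
    · exact _root_.intervalIntegrable_const
    · filter_upwards with x hx
      rw [uIoc_of_le hrr] at hx
      have h1 : ContinuousWithinAt (fun p : ℝ × ℝ => H (p.1, u p.1 - p.2) - deriv u p.1 * F (p.1, u p.1 - p.2))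
        (Icc (-r) r ×ˢ Icc (0:ℝ) 1) (x, 0) := cK (x, 0) ⟨⟨hx.1.le, hx.2⟩, le_refl 0, zero_le_one⟩
      have h2 : Tendsto (fun s : ℝ => (x, s)) (𝓝[>] 0) (𝓝[Icc (-r) r ×ˢ Icc (0:ℝ) 1] (x, 0)) := by
        apply tendsto_nhdsWithin_of_tendsto_nhds_of_eventually_within
        · have : ContinuousAt (fun s : ℝ => (x, s)) 0 := by fun_prop
          exact this.tendsto.mono_left nhdsWithin_le_nhds
        · filter_upwards [Ioc_mem_nhdsGT (zero_lt_one' ℝ)] with s hs
          exact ⟨⟨hx.1.le, hx.2⟩, hs.1.le, hs.2⟩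
      exact h1.tendsto.comp h2
  have hge : ∀ᶠ s : ℝ in 𝓝[>] 0,
      0 ≤ ∫ x in (-r)..r, (H (x, u x - s) - deriv u x * F (x, u x - s)) := by
    filter_upwards [self_mem_nhdsWithin] with s hs
    exact divergence_ineq_pos hu hr0 hr1 hF hH hside hbot hdiv hs
  have := ge_of_tendsto htend hge
  simpa using this

end

end Pool.Agent.H29.MEMS
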