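import Pool.Agent.H29.MEMS.Pot
import Pool.Agent.H29.MEMS.Div

open Set Topology Filter MeasureTheory

namespace Pool.Agent.H29.MEMS

variable {ε : ℝ} {u : ℝ → ℝ} {ψ : ℝ × ℝ → ℝ} {G : ℝ × ℝ → ℝ × ℝ}

lemma cda (hu : Adm u) (hψ : IsPotential ε u ψ G) {p : ℝ × ℝ} (hp : p ∈ Dom u) :
    ContDiffAt ℝ 2 ψ p :=
  (hψ.smooth p hp).contDiffAt ((isOpen_Dom hu.cont).mem_nhds hp)

lemma hfd (hu : Adm u) (hψ : IsPotential ε u ψ G) {p : ℝ × ℝ} (hp : p ∈ Dom u) :
    HasFDerivAt ψ (fderiv ℝ ψ p) p :=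
  ((cda hu hψ hp).differentiableAt (by simp)).hasFDerivAt

lemma line_fst (p : ℝ × ℝ) : HasDerivAt (fun x : ℝ => (x, p.2)) ((1:ℝ), (0:ℝ)) p.1 :=
  (hasDerivAt_id p.1).prodMk (hasDerivAt_const p.1 p.2)

lemma line_snd (p : ℝ × ℝ) : HasDerivAt (fun z : ℝ => (p.1, z)) ((0:ℝ), (1:ℝ)) p.2 :=
  (hasDerivAt_const p.2 p.1).prodMk (hasDerivAt_id p.2)

lemma slice_deriv_fst {f : ℝ × ℝ → ℝ} {f' : ℝ × ℝ →L[ℝ] ℝ} {p : ℝ × ℝ} (h : HasFDerivAt f f' p) :
    HasDerivAt (fun x => f (x, p.2)) (f' (1, 0)) p.1 :=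
  HasFDerivAt.comp_hasDerivAt p.1 (f := fun x : ℝ => (x, p.2)) (by simpa using h) (line_fst p)

lemma slice_deriv_snd {f : ℝ × ℝ → ℝ} {f' : ℝ × ℝ →L[ℝ] ℝ} {p : ℝ × ℝ} (h : HasFDerivAt f f' p) :
    HasDerivAt (fun z => f (p.1, z)) (f' (0, 1)) p.2 :=
  HasFDerivAt.comp_hasDerivAt p.2 (f := fun z : ℝ => (p.1, z)) (by simpa using h) (line_snd p)

lemma dx_eq (hu : Adm u) (hψ : IsPotential ε u ψ G) {p : ℝ × ℝ} (hp : p ∈ Dom u) :
    dx ψ p = fderiv ℝ ψ p (1, 0) := (slice_deriv_fst (hfd hu hψ hp)).deriv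

lemma dz_eq (hu : Adm u) (hψ : IsPotential ε u ψ G) {p : ℝ × ℝ} (hp : p ∈ Dom u) :
    dz ψ p = fderiv ℝ ψ p (0, 1) := (slice_deriv_snd (hfd hu hψ hp)).deriv

lemma G_eq (hu : Adm u) (hψ : IsPotential ε u ψ G) {p : ℝ × ℝ} (hp : p ∈ Dom u) :
    G p = (fderiv ℝ ψ p (1, 0), fderiv ℝ ψ p (0, 1)) := by
  rw [hψ.grad p hp, dx_eq hu hψ hp, dz_eq hu hψ hp]

lemma G_ev (hu : Adm u) (hψ : IsPotential ε u ψ G) {p : ℝ × ℝ} (hp : p ∈ Dom u) :
    G =ᶠ[𝓝 p] fun q => (fderiv ℝ ψ q (1, 0), fderiv ℝ ψ q (0, 1)) := by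
  filter_upwards [(isOpen_Dom hu.cont).mem_nhds hp] with q hq
  exact G_eq hu hψ hq

lemma G_cda (hu : Adm u) (hψ : IsPotential ε u ψ G) {p : ℝ × ℝ} (hp : p ∈ Dom u) :
    ContDiffAt ℝ 1 G p := by
  have h6 : ContDiffAt ℝ 1 (fderiv ℝ ψ) p := (cda hu hψ hp).fderiv_right (by norm_num)
  have h7 : ContDiffAt ℝ 1 (fun q => (fderiv ℝ ψ q (1, 0), fderiv ℝ ψ q (0, 1))) p :=
    (h6.clm_apply contDiffAt_const).prodMk (h6.clm_apply contDiffAt_const)
  exact h7.congr_of_eventuallyEq (G_ev hu hψ hp)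

/-- the second derivatives: `(P_x, P_z, Q_x, Q_z)` exist with the two relations -/
lemma second (hu : Adm u) (hψ : IsPotential ε u ψ G) {p : ℝ × ℝ} (hp : p ∈ Dom u) :
    ∃ Px Pz Qz : ℝ, HasDerivAt (fun x => (G (x, p.2)).1) Px p.1 ∧
      HasDerivAt (fun z => (G (p.1, z)).1) Pz p.2 ∧
      HasDerivAt (fun x => (G (x, p.2)).2) Pz p.1 ∧
      HasDerivAt (fun z => (G (p.1, z)).2) Qz p.2 ∧ ε ^ 2 * Px + Qz = 0 := by
  set D2 := fderiv ℝ (fderiv ℝ ψ) p with hD2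
  have hc : ContDiffAt ℝ 1 (fderiv ℝ ψ) p := (cda hu hψ hp).fderiv_right (by norm_num)
  have hd : HasFDerivAt (fderiv ℝ ψ) D2 p := (hc.differentiableAt (by simp)).hasFDerivAt
  have hsymm : IsSymmSndFDerivAt ℝ ψ p := (cda hu hψ hp).isSymmSndFDerivAt (by simp)
  have hP : HasFDerivAt (fun q => fderiv ℝ ψ q (1, 0)) (D2.flip (1, 0)) p := by
    have := hd.clm_apply (hasFDerivAt_const ((1:ℝ), (0:ℝ)) p)
    refine this.congr_fderiv ?_
    ext <;> simp
  have hQ : HasFDerivAt (fun q => fderiv ℝ ψ q (0, 1)) (D2.flip (0, 1)) p := by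
    have := hd.clm_apply (hasFDerivAt_const ((0:ℝ), (1:ℝ)) p)
    refine this.congr_fderiv ?_
    ext <;> simp
  have hP' : HasFDerivAt (fun q => (G q).1) (D2.flip (1, 0)) p := by
    refine hP.congr_of_eventuallyEq ?_
    filter_upwards [G_ev hu hψ hp] with q hq
    rw [hq]
  have hQ' : HasFDerivAt (fun q => (G q).2) (D2.flip (0, 1)) p := by
    refine hQ.congr_of_eventuallyEq ?_
    filter_upwards [G_ev hu hψ hp] with q hq
    rw [hq]
  refine ⟨D2 (1, 0) (1, 0), D2 (0, 1) (1, 0), D2 (0, 1) (0, 1), ?_, ?_, ?_, ?_, ?_⟩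
  · exact slice_deriv_fst hP'
  · exact slice_deriv_snd hP'
  · have h1 := slice_deriv_fst hQ'
    have h2 : D2.flip (0, 1) (1, 0) = D2 (0, 1) (1, 0) := hsymm (1, 0) (0, 1)
    rw [← h2]; exact h1
  · exact slice_deriv_snd hQ'
  · have hpde := hψ.pde p hp
    unfold Lop at hpde
    have e1 : deriv (fun x => ψ (x, p.2)) =ᶠ[𝓝 p.1] fun x => fderiv ℝ ψ (x, p.2) (1, 0) := by
      filter_upwards [comp_fst_mem hu.cont hp] with x hx
      exact dx_eq hu hψ hx
    have e2 : deriv (fun z => ψ (p.1, z)) =ᶠ[𝓝 p.2] fun z => fderiv ℝ ψ (p.1, z) (0, 1) := by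
      filter_upwards [comp_snd_mem hu.cont hp] with z hz
      exact dz_eq hu hψ hz
    rw [e1.deriv_eq, e2.deriv_eq, (slice_deriv_fst hP).deriv, (slice_deriv_snd hQ).deriv] at hpde
    exact hpde

/-- the tangential derivative vanishes on the top -/
theorem top_identity (hu : Adm u) (hψ : IsPotential ε u ψ G) {x0 : ℝ} (hx0 : x0 ∈ Ioo (-1:ℝ) 1) :
    (G (x0, u x0)).1 + deriv u x0 * (G (x0, u x0)).2 = 0 := by
  set K : ℝ × ℝ → ℝ := fun p =>
    (G (p.1, u p.1 - p.2)).1 + deriv u p.1 * (G (p.1, u p.1 - p.2)).2 with hK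
  set E : Set (ℝ × ℝ) := {p | -1 < p.1 ∧ p.1 < 1 ∧ 0 ≤ p.2 ∧ p.2 < 1 + u p.1} with hE
  have hmapsE : ∀ p ∈ E, (p.1, u p.1 - p.2) ∈ TDom u := by
    intro p hp
    exact ⟨hp.1, hp.2.1, by have := hp.2.2.2; simp only; linarith,
      by have := hp.2.2.1; simp only; linarith⟩
  have hcv : ContinuousOn (fun p : ℝ × ℝ => (p.1, u p.1 - p.2)) E := by
    have h1 : ContinuousOn (fun p : ℝ × ℝ => u p.1) E :=
      hu.cont.comp continuousOn_fst (fun p hp => ⟨hp.1.le, hp.2.1.le⟩)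
    exact continuousOn_fst.prodMk (h1.sub continuousOn_snd)
  have hKc : ContinuousOn K E := by
    have h1 := hψ.gcont.comp hcv hmapsE
    have h2 : ContinuousOn (fun p : ℝ × ℝ => deriv u p.1) E :=
      (deriv_cont hu.c1).comp continuousOn_fst (fun p hp => ⟨hp.1, hp.2.1⟩)
    exact (continuous_fst.comp_continuousOn h1).add (h2.mul (continuous_snd.comp_continuousOn h1))
  have hgx0 : 0 < 1 + u x0 := by have := hu.gt x0 ⟨hx0.1.le, hx0.2.le⟩; linarith
  have hmem0 : ((x0, 0) : ℝ × ℝ) ∈ E := ⟨hx0.1, hx0.2, le_refl _, hgx0⟩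
  set c := K (x0, 0) with hc
  have hc' : c = (G (x0, u x0)).1 + deriv u x0 * (G (x0, u x0)).2 := by simp [hc, hK]
  rw [← hc']
  by_contra hne
  have hcpos : 0 < |c| / 2 := by have := abs_pos.mpr hne; linarith
  obtain ⟨δ, hδ, hball⟩ := Metric.continuousWithinAt_iff.mp (hKc (x0, 0) hmem0) (|c| / 2) hcpos
  -- a neighbourhood on which the depth is available
  have hcu : ContinuousAt u x0 :=
    (hu.cont x0 ⟨hx0.1.le, hx0.2.le⟩).continuousAt (Icc_mem_nhds hx0.1 hx0.2)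
  have hev : ∀ᶠ x in 𝓝 x0, (1 + u x0) / 2 < 1 + u x := by
    have : Tendsto (fun x => 1 + u x) (𝓝 x0) (𝓝 (1 + u x0)) := hcu.tendsto.const_add 1
    exact this.eventually (lt_mem_nhds (by linarith))
  obtain ⟨δ2, hδ2, hδ2'⟩ := Metric.eventually_nhds_iff.mp hev
  set b := x0 + min (δ / 2) (min (δ2 / 2) ((1 - x0) / 2)) with hb
  have hb0 : x0 < b := by
    have : 0 < min (δ / 2) (min (δ2 / 2) ((1 - x0) / 2)) := by
      have := hx0.2
      refine lt_min (by linarith) (lt_min (by linarith) (by linarith))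
    linarith
  have hb1 : b - x0 ≤ δ / 2 := by
    have : min (δ / 2) (min (δ2 / 2) ((1 - x0) / 2)) ≤ δ / 2 := min_le_left _ _
    linarith
  have hb2 : b - x0 ≤ δ2 / 2 := by
    have : min (δ / 2) (min (δ2 / 2) ((1 - x0) / 2)) ≤ δ2 / 2 :=
      (min_le_right _ _).trans (min_le_left _ _)
    linarith
  have hb3 : b < 1 := by
    have : min (δ / 2) (min (δ2 / 2) ((1 - x0) / 2)) ≤ (1 - x0) / 2 :=
      (min_le_right _ _).trans (min_le_right _ _)
    have := hx0.2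
    linarith
  have hin : ∀ x ∈ Icc x0 b, ∀ s : ℝ, 0 < s → s < min (δ / 2) ((1 + u x0) / 2) →
      (x, s) ∈ E ∧ |K (x, s) - c| < |c| / 2 := by
    intro x hx s hs0 hs1
    have h1 : s < δ / 2 := lt_of_lt_of_le hs1 (min_le_left _ _)
    have h2 : s < (1 + u x0) / 2 := lt_of_lt_of_le hs1 (min_le_right _ _)
    have h3 : dist x x0 < δ2 := by
      rw [Real.dist_eq, abs_of_nonneg (by linarith [hx.1])]; linarith [hx.2]
    have h4 := hδ2' h3
    have hE1 : (x, s) ∈ E := ⟨by linarith [hx.1, hx0.1], by linarith [hx.2], hs0.le, by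
      simp only; linarith⟩
    refine ⟨hE1, ?_⟩
    have h5 : dist ((x, s) : ℝ × ℝ) (x0, 0) < δ := by
      rw [Prod.dist_eq, max_lt_iff]
      refine ⟨?_, ?_⟩
      · rw [Real.dist_eq, abs_of_nonneg (by simp only; linarith [hx.1])]
        simp only; linarith [hx.2]
      · rw [Real.dist_eq]; simp only [sub_zero]; rw [abs_of_pos hs0]; linarith
    have := hball hE1 h5
    rwa [Real.dist_eq] at this
  -- estimate on the shifted curves
  have hest : ∀ s : ℝ, 0 < s → s < min (δ / 2) ((1 + u x0) / 2) →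
      |(ψ (b, u b - s) - c * b) - (ψ (x0, u x0 - s) - c * x0)| ≤ |c| / 2 * (b - x0) := by
    intro s hs0 hs1
    have hderiv : ∀ x ∈ Icc x0 b,
        HasDerivWithinAt (fun x => ψ (x, u x - s) - c * x) (K (x, s) - c) (Icc x0 b) x := by
      intro x hx
      have hE1 := (hin x hx s hs0 hs1).1
      have hD : (x, u x - s) ∈ Dom u := ⟨hE1.1, hE1.2.1, by
        have := hE1.2.2.2; simp only at this ⊢; linarith, by simp only; linarith⟩
      have h1 := hfd hu hψ hD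
      have h2 : HasDerivAt (fun x => (x, u x - s)) (1, deriv u x) x :=
        (hasDerivAt_id x).prodMk ((hasDeriv_u hu.c1 ⟨hE1.1, hE1.2.1⟩).sub_const s)
      have h3 := h1.comp_hasDerivAt x h2
      have h4 : HasDerivAt (fun x : ℝ => c * x) c x := by
        simpa using (hasDerivAt_id x).const_mul c
      have h5 := (h3.sub h4).hasDerivWithinAt (s := Icc x0 b)
      refine h5.congr_deriv ?_
      have e1 : ((1:ℝ), deriv u x) = (1, 0) + deriv u x • ((0:ℝ), (1:ℝ)) := by simp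
      rw [e1, map_add, map_smul, smul_eq_mul]
      simp only [hK]
      rw [G_eq hu hψ hD]
    have hbound : ∀ x ∈ Icc x0 b, ‖K (x, s) - c‖ ≤ |c| / 2 := fun x hx =>
      (hin x hx s hs0 hs1).2.le
    have := (convex_Icc x0 b).norm_image_sub_le_of_norm_hasDerivWithin_le hderiv hbound
      (left_mem_Icc.mpr hb0.le) (right_mem_Icc.mpr hb0.le)
    rw [Real.norm_eq_abs, Real.norm_eq_abs, abs_of_pos (a := b - x0) (by linarith)] at this
    exact this
  -- limit `s → 0`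
  have htop : ∀ x ∈ Icc x0 b, Tendsto (fun s : ℝ => ψ (x, u x - s)) (𝓝[>] 0) (𝓝 1) := by
    intro x hx
    have hx1 : x ∈ Icc (-1:ℝ) 1 := ⟨by linarith [hx.1, hx0.1], by linarith [hx.2]⟩
    have hgx := hu.gt x hx1
    have hmem : (x, u x) ∈ CDom u := ⟨hx1.1, hx1.2, hgx.le, le_refl _⟩
    have hnot : (x, u x) ∉ Dom u := by
      intro hd; have := hd.2.2.2; simp only at this; linarith
    have hval : ψ (x, u x) = 1 := by
      rw [hψ.bdry _ hmem hnot]; simp only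
      exact div_self (by linarith)
    have hcw := hψ.cont (x, u x) hmem
    rw [← hval]
    have h2 : Tendsto (fun s : ℝ => (x, u x - s)) (𝓝[>] 0) (𝓝[CDom u] (x, u x)) := by
      apply tendsto_nhdsWithin_of_tendsto_nhds_of_eventually_within
      · have : ContinuousAt (fun s : ℝ => (x, u x - s)) 0 := by fun_prop
        have h3 := this.tendsto.mono_left (nhdsWithin_le_nhds (s := Ioi 0))
        simpa using h3
      · filter_upwards [Ioc_mem_nhdsGT (show (0:ℝ) < 1 + u x by linarith)] with s hs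
        exact ⟨hx1.1, hx1.2, by simp only; linarith [hs.2], by simp only; linarith [hs.1]⟩
    exact hcw.tendsto.comp h2
  have hlim : Tendsto (fun s : ℝ => |(ψ (b, u b - s) - c * b) - (ψ (x0, u x0 - s) - c * x0)|)
      (𝓝[>] 0) (𝓝 |(1 - c * b) - (1 - c * x0)|) :=
    (((htop b (right_mem_Icc.mpr hb0.le)).sub_const _).sub
      ((htop x0 (left_mem_Icc.mpr hb0.le)).sub_const _)).abs
  have hle : |(1 - c * b) - (1 - c * x0)| ≤ |c| / 2 * (b - x0) := by
    refine le_of_tendsto hlim ?_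
    have hpos : 0 < min (δ / 2) ((1 + u x0) / 2) := lt_min (by linarith) (by linarith)
    filter_upwards [Ioo_mem_nhdsGT hpos] with s hs
    exact hest s hs.1 hs.2
  have e1 : (1 - c * b) - (1 - c * x0) = -(c * (b - x0)) := by ring
  rw [e1, abs_neg, abs_mul, abs_of_pos (a := b - x0) (by linarith)] at hle
  have h9 : 0 < |c| := abs_pos.mpr hne
  have h10 : 0 < b - x0 := by linarith
  nlinarith [mul_pos h9 h10]

end Pool.Agent.H29.MEMS
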