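import Mathlib

open Set Topology Filter MeasureTheory

namespace Pool.Agent.H29.MEMS

/-- `max s 0 ^ (n+2)` has derivative `(n+2) max s 0 ^ (n+1)` -/
lemma mp_hasDerivAt (n : ℕ) (s : ℝ) :
    HasDerivAt (fun s : ℝ => max s 0 ^ (n + 2)) ((n + 2) * max s 0 ^ (n + 1)) s := by
  rcases lt_trichotomy s 0 with h | h | h
  · have h1 : (fun s : ℝ => max s 0 ^ (n + 2)) =ᶠ[𝓝 s] fun _ => 0 := by
      filter_upwards [gt_mem_nhds h] with x hx
      rw [max_eq_right (le_of_lt hx)]; simp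
    rw [max_eq_right h.le]
    simp only [ne_eq, Nat.add_eq_zero_iff, one_ne_zero, and_false, not_false_eq_true, zero_pow,
      mul_zero]
    exact (hasDerivAt_const s (0:ℝ)).congr_of_eventuallyEq h1
  · subst h
    simp only [max_self, ne_eq, Nat.add_eq_zero_iff, one_ne_zero, and_false, not_false_eq_true,
      zero_pow, mul_zero]
    rw [hasDerivAt_iff_isLittleO]
    refine Asymptotics.IsBigO.trans_isLittleO (Asymptotics.IsBigO.of_bound 1 ?_)
      (g := fun x : ℝ => x ^ (n + 2)) ?_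
    · filter_upwards with x
      simp only [max_self, ne_eq, Nat.add_eq_zero_iff, OfNat.ofNat_ne_zero, and_false,
        not_false_eq_true, zero_pow, sub_zero, smul_eq_mul, mul_zero, norm_pow, one_mul]
      apply pow_le_pow_left₀ (norm_nonneg _)
      rw [Real.norm_eq_abs, Real.norm_eq_abs]
      rcases le_total x 0 with h | h
      · rw [max_eq_right h]; simp
      · rw [max_eq_left h]
    · have h2 := Asymptotics.isLittleO_pow_id (𝕜 := ℝ) (n := n + 2) (by omega)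
      simpa using h2
  · have h1 : (fun s : ℝ => max s 0 ^ (n + 2)) =ᶠ[𝓝 s] fun s => s ^ (n + 2) := by
      filter_upwards [lt_mem_nhds h] with x hx
      rw [max_eq_left (le_of_lt hx)]
    rw [max_eq_left h.le]
    have h2 := hasDerivAt_pow (n + 2) s
    refine (h2.congr_of_eventuallyEq h1).congr_deriv ?_
    push_cast
    simp

lemma mp_contDiff (n : ℕ) : ContDiff ℝ n (fun s : ℝ => max s 0 ^ (n + 1)) := by
  induction n with
  | zero =>
    simp only [CharP.cast_eq_zero, zero_add, pow_one]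
    rw [contDiff_zero]
    fun_prop
  | succ n ih =>
    rw [Nat.cast_succ, contDiff_succ_iff_deriv]
    refine ⟨fun x => (mp_hasDerivAt n x).differentiableAt, by simp, ?_⟩
    have : deriv (fun s : ℝ => max s 0 ^ (n + 1 + 1)) = fun s => ((n:ℝ) + 2) * max s 0 ^ (n + 1) := by
      ext s; exact (mp_hasDerivAt n s).deriv
    rw [this]
    exact contDiff_const.mul ih

/-- the distance-like profile -/
noncomputable def mm (x : ℝ) : ℝ := max (9 / 16 - x ^ 2) 0

/-- the weight -/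
noncomputable def wt (x : ℝ) : ℝ := mm x ^ 5

lemma mm_nonneg (x : ℝ) : 0 ≤ mm x := le_max_right _ _

lemma mm_le (x : ℝ) : mm x ≤ 9 / 16 := by
  unfold mm
  apply max_le
  · nlinarith [sq_nonneg x]
  · norm_num

lemma mm_pow_hasDerivAt (n : ℕ) (x : ℝ) :
    HasDerivAt (fun x => mm x ^ (n + 2)) (((n:ℝ) + 2) * mm x ^ (n + 1) * (-(2 * x))) x := by
  have h1 : HasDerivAt (fun x : ℝ => 9 / 16 - x ^ 2) (-(2 * x)) x := by
    have := (hasDerivAt_pow 2 x).const_sub (9 / 16)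
    simpa using this
  exact (mp_hasDerivAt n (9 / 16 - x ^ 2)).comp x h1

lemma wt_contDiff : ContDiff ℝ 4 wt := by
  have h1 : ContDiff ℝ 4 (fun x : ℝ => 9 / 16 - x ^ 2) := by fun_prop
  exact (mp_contDiff 4).comp h1

lemma wt_d1 : deriv wt = fun x => -(10 * x * mm x ^ 4) := by
  ext x
  have := (mm_pow_hasDerivAt 3 x).deriv
  unfold wt
  rw [this]
  push_cast
  ring

lemma wt_d2 : deriv (deriv wt) = fun x => 80 * x ^ 2 * mm x ^ 3 - 10 * mm x ^ 4 := by
  rw [wt_d1]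
  ext x
  have h1 := mm_pow_hasDerivAt 2 x
  have h2 : HasDerivAt (fun x : ℝ => 10 * x) 10 x := by
    simpa using (hasDerivAt_id x).const_mul (10:ℝ)
  have h3 := (h2.mul h1).neg
  refine (h3.congr_deriv ?_).deriv
  push_cast
  ring

lemma wt_d3 : deriv (deriv (deriv wt)) = fun x => 240 * x * mm x ^ 3 - 480 * x ^ 3 * mm x ^ 2 := by
  rw [wt_d2]
  ext x
  have h1 := mm_pow_hasDerivAt 1 x
  have h1' := mm_pow_hasDerivAt 2 x
  have h2 : HasDerivAt (fun x : ℝ => 80 * x ^ 2) (80 * (2 * x)) x := by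
    have := (hasDerivAt_pow 2 x).const_mul (80:ℝ)
    simpa using this
  have h3 := (h2.mul h1).sub (h1'.const_mul 10)
  refine (h3.congr_deriv ?_).deriv
  push_cast
  ring

lemma wt_d4 : deriv (deriv (deriv (deriv wt))) =
    fun x => 240 * mm x ^ 3 - 2880 * x ^ 2 * mm x ^ 2 + 1920 * x ^ 4 * mm x := by
  rw [wt_d3]
  ext x
  have h1 := mm_pow_hasDerivAt 0 x
  have h1' := mm_pow_hasDerivAt 1 x
  have h2 : HasDerivAt (fun x : ℝ => 240 * x) 240 x := by
    simpa using (hasDerivAt_id x).const_mul (240:ℝ)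
  have h2' : HasDerivAt (fun x : ℝ => 480 * x ^ 3) (480 * (3 * x ^ 2)) x := by
    have := (hasDerivAt_pow 3 x).const_mul (480:ℝ)
    simpa using this
  have h3 := (h2.mul h1').sub (h2'.mul h1)
  refine (h3.congr_deriv ?_).deriv
  push_cast
  ring

lemma wt_i2 (x : ℝ) : iteratedDeriv 2 wt x = 80 * x ^ 2 * mm x ^ 3 - 10 * mm x ^ 4 := by
  rw [iteratedDeriv_succ, iteratedDeriv_one, wt_d2]

lemma wt_i4 (x : ℝ) : iteratedDeriv 4 wt x =
    240 * mm x ^ 3 - 2880 * x ^ 2 * mm x ^ 2 + 1920 * x ^ 4 * mm x := by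
  rw [iteratedDeriv_succ, iteratedDeriv_succ, iteratedDeriv_succ, iteratedDeriv_one, wt_d4]

lemma mm_x (x : ℝ) : x ^ 2 * mm x = (9 / 16 - mm x) * mm x := by
  unfold mm
  rcases le_total (9 / 16 - x ^ 2) 0 with h | h
  · rw [max_eq_right h]; ring
  · rw [max_eq_left h]; ring

/-- the differential inequality for the weight -/
lemma wt_ineq {β τ : ℝ} (hβ : 0 < β) (hτ : 0 ≤ τ) :
    ∃ K : ℝ, 1 ≤ K ∧ ∀ x, -(K * wt x) ≤ β * iteratedDeriv 4 wt x - τ * iteratedDeriv 2 wt x := by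
  -- expression in terms of `p = mm x`
  set φ : ℝ → ℝ := fun p => β * (1920 * (9 / 16 - p) ^ 2 - 2880 * (9 / 16 - p) * p + 240 * p ^ 2)
    - τ * (80 * (9 / 16 - p) * p ^ 2 - 10 * p ^ 3) with hφ
  have hexp : ∀ x, β * iteratedDeriv 4 wt x - τ * iteratedDeriv 2 wt x = φ (mm x) * mm x := by
    intro x
    rw [wt_i2, wt_i4]
    have h1 := mm_x x
    have h2 : x ^ 2 * mm x ^ 2 = (9 / 16 - mm x) * mm x ^ 2 := by
      calc x ^ 2 * mm x ^ 2 = (x ^ 2 * mm x) * mm x := by ring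
        _ = _ := by rw [h1]; ring
    have h3 : x ^ 2 * mm x ^ 3 = (9 / 16 - mm x) * mm x ^ 3 := by
      calc x ^ 2 * mm x ^ 3 = (x ^ 2 * mm x) * mm x ^ 2 := by ring
        _ = _ := by rw [h1]; ring
    have h4 : x ^ 4 * mm x = (9 / 16 - mm x) ^ 2 * mm x := by
      linear_combination (x ^ 2) * h1 + (9 / 16 - mm x) * h1
    simp only [hφ]
    linear_combination (β * 1920) * h4 - (β * 2880) * h2 - (τ * 80) * h3
  have hφc : Continuous φ := by simp only [hφ]; fun_prop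
  have hφ0 : 0 < φ 0 := by simp only [hφ]; nlinarith
  -- positivity near zero
  obtain ⟨η, hη, hη2⟩ := Metric.eventually_nhds_iff.mp
    (hφc.continuousAt.eventually (lt_mem_nhds hφ0))
  obtain ⟨C, hC⟩ := (isCompact_Icc (a := (0:ℝ)) (b := 9/16)).exists_bound_of_continuousOn
    hφc.continuousOn
  refine ⟨max 1 (|C| / η ^ 4), le_max_left _ _, ?_⟩
  intro x
  rw [hexp]
  have hm0 := mm_nonneg x
  have hm1 := mm_le x
  have hw : wt x = mm x ^ 4 * mm x := by unfold wt; ring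
  rw [hw]
  by_cases hlt : mm x < η
  · have h1 : 0 < φ (mm x) := hη2 (by rw [Real.dist_eq, sub_zero, abs_of_nonneg hm0]; exact hlt)
    have h2 : 0 ≤ φ (mm x) * mm x := mul_nonneg h1.le hm0
    have h3 : 0 ≤ max 1 (|C| / η ^ 4) * (mm x ^ 4 * mm x) := by positivity
    linarith
  · have hge : η ≤ mm x := not_lt.mp hlt
    have h1 := hC (mm x) ⟨hm0, hm1⟩
    rw [Real.norm_eq_abs] at h1
    have h2 : -|C| ≤ φ (mm x) := by
      have := neg_abs_le (φ (mm x)); have := le_abs_self C; linarith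
    have h3 : |C| ≤ max 1 (|C| / η ^ 4) * mm x ^ 4 := by
      have h4 : η ^ 4 ≤ mm x ^ 4 := pow_le_pow_left₀ hη.le hge 4
      calc |C| = |C| / η ^ 4 * η ^ 4 := by field_simp
        _ ≤ |C| / η ^ 4 * mm x ^ 4 := mul_le_mul_of_nonneg_left h4 (by positivity)
        _ ≤ max 1 (|C| / η ^ 4) * mm x ^ 4 :=
          mul_le_mul_of_nonneg_right (le_max_right _ _) (by positivity)
    have h5 : -(max 1 (|C| / η ^ 4) * mm x ^ 4) ≤ φ (mm x) := by linarith
    calc -(max 1 (|C| / η ^ 4) * (mm x ^ 4 * mm x))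
        = -(max 1 (|C| / η ^ 4) * mm x ^ 4) * mm x := by ring
      _ ≤ φ (mm x) * mm x := mul_le_mul_of_nonneg_right h5 hm0

lemma wt_nonneg (x : ℝ) : 0 ≤ wt x := pow_nonneg (mm_nonneg x) 5

lemma wt_supp {x : ℝ} (hx : 3 / 4 ≤ |x|) : wt x = 0 := by
  unfold wt mm
  have : 9 / 16 - x ^ 2 ≤ 0 := by
    have h1 : (3 / 4 : ℝ) ^ 2 ≤ |x| ^ 2 := pow_le_pow_left₀ (by norm_num) hx 2
    rw [sq_abs] at h1
    linarith
  rw [max_eq_right this]; simp

lemma wt_lower : ∀ x ∈ Icc (-(1/2:ℝ)) (1/2), (5 / 16 : ℝ) ^ 5 ≤ wt x := by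
  intro x hx
  unfold wt
  apply pow_le_pow_left₀ (by norm_num)
  unfold mm
  refine le_trans ?_ (le_max_left _ _)
  have : x ^ 2 ≤ (1/2) ^ 2 := sq_le_sq' hx.1 hx.2
  linarith

lemma wt_tsupport : tsupport wt ⊆ Ioo (-1) 1 := by
  have h1 : Function.support wt ⊆ Icc (-(3/4)) (3/4) := by
    intro x hx
    by_contra hcon
    apply hx
    apply wt_supp
    by_contra h2
    push Not at h2
    exact hcon (abs_le.mp h2.le)
  have h2 : tsupport wt ⊆ Icc (-(3/4)) (3/4) := closure_minimal h1 isClosed_Icc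
  exact h2.trans (fun x hx => ⟨by linarith [hx.1], by linarith [hx.2]⟩)

end Pool.Agent.H29.MEMS
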