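import Pool.Agent.H29.MEMS.Force
import Pool.Agent.H29.MEMS.Test

open Set Topology Filter MeasureTheory

namespace Pool.Agent.H29.MEMS

/-- the mean `∫ u(t,x) w(x) dx` -/
noncomputable def moment (u : ℝ → ℝ → ℝ) (w : ℝ → ℝ) (t : ℝ) : ℝ := ∫ x in (-1:ℝ)..1, u t x * w x

/-- weak solutions on `[0,T)` -/
structure IsSolution (β τ γ ε lam T : ℝ) (u : ℝ → ℝ → ℝ) (ψ : ℝ → ℝ × ℝ → ℝ)
    (G : ℝ → ℝ × ℝ → ℝ × ℝ) : Prop where
  reg : ∀ t ∈ Ico 0 T, ContDiffOn ℝ 1 (u t) (Icc (-1) 1)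
  above : ∀ t ∈ Ico 0 T, ∀ x ∈ Icc (-1:ℝ) 1, -1 < u t x
  clamped : ∀ t ∈ Ico 0 T, u t (-1) = 0 ∧ u t 1 = 0 ∧
    derivWithin (u t) (Icc (-1) 1) (-1) = 0 ∧ derivWithin (u t) (Icc (-1) 1) 1 = 0
  potential : ∀ t ∈ Ico 0 T, IsPotential ε (u t) (ψ t) (G t)
  initial : 0 < T → ∀ x ∈ Icc (-1:ℝ) 1, u 0 x = 0
  weak : ∀ w : ℝ → ℝ, ContDiff ℝ 4 w → tsupport w ⊆ Ioo (-1) 1 →
    ContinuousOn (moment u w) (Ico 0 T) ∧
    (0 < γ → (∀ t ∈ Ioo 0 T, DifferentiableAt ℝ (moment u w) t) ∧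
      Tendsto (deriv (moment u w)) (𝓝[>] 0) (𝓝 0)) ∧
    ∀ t ∈ Ioo 0 T, HasDerivAt (fun s => γ ^ 2 * deriv (moment u w) s + moment u w s)
      (-(∫ x in (-1:ℝ)..1, u t x * (β * iteratedDeriv 4 w x - τ * iteratedDeriv 2 w x))
        - lam * ∫ x in (-1:ℝ)..1, gE ε (u t) (G t) x * w x) t

/-- the abstract ordinary differential inequality argument -/
theorem ode_argument {γ K Cq I c lam t0 T : ℝ} (hγ : 0 ≤ γ) (hK : 1 ≤ K) (hI : 0 ≤ I)
    (ht0 : 0 < t0) (ht1 : K * t0 ≤ 1 / 2) (ht2 : t0 ≤ 1) (hT : t0 < T) (hc : 0 < c)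
    (hlam0 : 0 ≤ lam)
    (hlam : K * (2 * (|Cq| + I)) + Cq + (3 * I / t0 + 4 * γ ^ 2 * (I + 2 * (|Cq| + I)) / t0 ^ 2 + 1)
      ≤ lam * c)
    {y N F : ℝ → ℝ} (hy : ContinuousOn y (Ico 0 T)) (hy0 : y 0 = 0)
    (hyI : ∀ t ∈ Ico 0 T, -I ≤ y t)
    (hyd : 0 < γ → (∀ t ∈ Ioo 0 T, DifferentiableAt ℝ y t) ∧ Tendsto (deriv y) (𝓝[>] 0) (𝓝 0))
    (hZ : ∀ t ∈ Ioo 0 T, HasDerivAt (fun s => γ ^ 2 * deriv y s + y s) (-N t - lam * F t) t)
    (hN : ∀ t ∈ Ioo 0 T, -N t ≤ K * (y t + I) + Cq)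
    (hF0 : ∀ t ∈ Ioo 0 T, 0 ≤ F t)
    (hF : ∀ t ∈ Ioo 0 T, y t + I ≤ 2 * (|Cq| + I) → c ≤ F t) : False := by
  set Z : ℝ → ℝ := fun s => γ ^ 2 * deriv y s + y s with hZdef
  set M0 := 2 * (|Cq| + I) with hM0
  -- Z tends to 0 at 0
  have hZ0 : Tendsto Z (𝓝[>] 0) (𝓝 0) := by
    have h1 : Tendsto y (𝓝[>] 0) (𝓝 0) := by
      have h2 := hy 0 ⟨le_refl 0, by linarith⟩
      rw [ContinuousWithinAt, hy0] at h2
      refine h2.mono_left ?_
      have : 𝓝[>] (0:ℝ) = 𝓝[Ioo 0 T] 0 := (nhdsWithin_Ioo_eq_nhdsGT (by linarith)).symm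
      rw [this]
      exact nhdsWithin_mono _ Ioo_subset_Ico_self
    rcases hγ.eq_or_lt with h | h
    · have : Z = y := by
        ext s; simp only [hZdef]; rw [← h]; ring
      rw [this]; exact h1
    · have h3 := ((hyd h).2.const_mul (γ ^ 2)).add h1
      simpa using h3
  -- upper bound for Z from a bound of its derivative
  have hZbound : ∀ B : ℝ, (∀ t ∈ Ioo 0 t0, -N t - lam * F t ≤ B) → ∀ t ∈ Ioc 0 t0, Z t ≤ B * t := by
    intro B hB t ht
    have h1 : ∀ s ∈ Ioo 0 t, Z t - Z s ≤ B * (t - s) := by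
      intro s hs
      have hsub : Icc s t ⊆ Ioo 0 T := fun r hr => ⟨lt_of_lt_of_le hs.1 hr.1, by
        linarith [hr.2, ht.2]⟩
      refine (convex_Icc s t).image_sub_le_mul_sub_of_deriv_le (f := Z) ?_ ?_ ?_ s
        (left_mem_Icc.mpr hs.2.le) t (right_mem_Icc.mpr hs.2.le) hs.2.le
      · intro r hr
        exact (hZ r (hsub hr)).continuousAt.continuousWithinAt
      · intro r hr
        rw [interior_Icc] at hr
        exact (hZ r (hsub (Ioo_subset_Icc_self hr))).differentiableAt.differentiableWithinAt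
      · intro r hr
        rw [interior_Icc] at hr
        rw [(hZ r (hsub (Ioo_subset_Icc_self hr))).deriv]
        exact hB r ⟨lt_trans hs.1 hr.1, lt_of_lt_of_le hr.2 ht.2⟩
    have h2 : Tendsto (fun s => Z t - Z s) (𝓝[>] 0) (𝓝 (Z t - 0)) := hZ0.const_sub (Z t)
    have h3 : Tendsto (fun s : ℝ => B * (t - s)) (𝓝[>] 0) (𝓝 (B * (t - 0))) := by
      have : Continuous (fun s : ℝ => B * (t - s)) := by fun_prop
      exact (this.tendsto 0).mono_left nhdsWithin_le_nhds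
    have h4 := le_of_tendsto_of_tendsto h2 h3 (by
      filter_upwards [Ioo_mem_nhdsGT ht.1] with s hs
      exact h1 s hs)
    simpa using h4
  -- maximum of y on [0,t0]
  have hsubT : Icc 0 t0 ⊆ Ico 0 T := fun r hr => ⟨hr.1, lt_of_le_of_lt hr.2 hT⟩
  obtain ⟨tm, htm, hmax⟩ := isCompact_Icc.exists_isMaxOn (nonempty_Icc.mpr ht0.le) (hy.mono hsubT)
  have hymax : ∀ t ∈ Icc 0 t0, y t ≤ y tm := fun t ht => hmax ht
  have hm0 : 0 ≤ y tm := by
    have := hymax 0 ⟨le_refl 0, ht0.le⟩; rw [hy0] at this; exact this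
  -- bound of Z by the maximum
  have hZ1 : ∀ t ∈ Ioc 0 t0, Z t ≤ (y tm + I) / 2 + |Cq| := by
    intro t ht
    have h1 := hZbound (K * (y tm + I) + |Cq|) (by
      intro r hr
      have hr' : r ∈ Ioo 0 T := ⟨hr.1, lt_trans hr.2 hT⟩
      have a1 := hN r hr'
      have a2 := hymax r ⟨hr.1.le, hr.2.le⟩
      have a3 : 0 ≤ lam * F r := mul_nonneg hlam0 (hF0 r hr')
      have a4 := le_abs_self Cq
      have a5 : K * (y r + I) ≤ K * (y tm + I) := mul_le_mul_of_nonneg_left (by linarith) (by linarith)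
      linarith) t ht
    have h2 : (K * (y tm + I) + |Cq|) * t ≤ (K * (y tm + I) + |Cq|) * t0 :=
      mul_le_mul_of_nonneg_left ht.2 (by positivity)
    have h3 : (K * (y tm + I) + |Cq|) * t0 = (K * t0) * (y tm + I) + |Cq| * t0 := by ring
    have h4 : (K * t0) * (y tm + I) ≤ 1 / 2 * (y tm + I) :=
      mul_le_mul_of_nonneg_right ht1 (by linarith)
    have h5 : |Cq| * t0 ≤ |Cq| * 1 := mul_le_mul_of_nonneg_left ht2 (abs_nonneg _)
    linarith
  -- y tm ≤ Z tm when tm > 0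
  have hyZ : y tm + I ≤ M0 := by
    rcases htm.1.eq_or_lt with h | h
    · rw [← h, hy0, hM0]
      have := abs_nonneg Cq
      linarith
    · have hZt := hZ1 tm ⟨h, htm.2⟩
      have hle : y tm ≤ Z tm := by
        rcases hγ.eq_or_lt with hg | hg
        · simp only [hZdef]; rw [← hg]; ring_nf; exact le_refl _
        · have hd := ((hyd hg).1 tm ⟨h, lt_of_le_of_lt htm.2 hT⟩).hasDerivAt
          have hslope := hd.tendsto_slope
          have h1 : Tendsto (slope y tm) (𝓝[<] tm) (𝓝 (deriv y tm)) :=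
            hslope.mono_left (nhdsWithin_mono _ (fun x hx => ne_of_lt hx))
          have h2 : 0 ≤ deriv y tm := by
            refine ge_of_tendsto h1 ?_
            filter_upwards [Ioo_mem_nhdsLT h] with s hs
            have h3 := hymax s ⟨hs.1.le, by linarith [hs.2, htm.2]⟩
            rw [slope_def_field]
            apply div_nonneg_of_nonpos <;> linarith [hs.2]
          simp only [hZdef]
          have : 0 ≤ γ ^ 2 * deriv y tm := by positivity
          linarith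
      rw [hM0]
      linarith
  -- the force is bounded below
  have hFc : ∀ t ∈ Ioo 0 t0, c ≤ F t := by
    intro t ht
    have := hymax t ⟨ht.1.le, ht.2.le⟩
    exact hF t ⟨ht.1, lt_trans ht.2 hT⟩ (by linarith)
  set κ := 3 * I / t0 + 4 * γ ^ 2 * (I + M0) / t0 ^ 2 + 1 with hκ
  have hZ2 : ∀ t ∈ Ioc 0 t0, Z t ≤ -κ * t := by
    apply hZbound
    intro r hr
    have hr' : r ∈ Ioo 0 T := ⟨hr.1, lt_trans hr.2 hT⟩
    have a1 := hN r hr'
    have a2 := hymax r ⟨hr.1.le, hr.2.le⟩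
    have a3 : lam * c ≤ lam * F r := mul_le_mul_of_nonneg_left (hFc r hr) hlam0
    have a5 : K * (y r + I) ≤ K * M0 := mul_le_mul_of_nonneg_left (by linarith) (by linarith)
    linarith
  have hM0n : 0 ≤ M0 := by rw [hM0]; positivity
  have hκpos : 0 < κ := by rw [hκ]; positivity
  have hκ1 : 3 * I ≤ κ * t0 := by
    have : 3 * I / t0 ≤ κ := by
      rw [hκ]
      have : 0 ≤ 4 * γ ^ 2 * (I + M0) / t0 ^ 2 := by positivity
      linarith
    calc 3 * I = 3 * I / t0 * t0 := by field_simp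
      _ ≤ κ * t0 := mul_le_mul_of_nonneg_right this ht0.le
  rcases hγ.eq_or_lt with hg | hg
  · -- parabolic case
    have h1 := hZ2 t0 ⟨ht0, le_refl _⟩
    have h2 : Z t0 = y t0 := by simp only [hZdef]; rw [← hg]; ring
    have h3 := hyI t0 ⟨ht0.le, hT⟩
    rw [h2] at h1
    have h4 : 0 < κ * t0 := by positivity
    have h5 : κ * t0 = 3 * I + 4 * γ ^ 2 * (I + M0) / t0 + t0 := by
      rw [hκ]; field_simp
    have h6 : 0 ≤ 4 * γ ^ 2 * (I + M0) / t0 := by positivity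
    nlinarith
  · -- hyperbolic case
    have hdec : ∀ s ∈ Icc (t0 / 2) t0, deriv y s ≤ (-κ * (t0 / 2) + I) / γ ^ 2 := by
      intro s hs
      have h1 := hZ2 s ⟨by linarith [hs.1], hs.2⟩
      have h2 := hyI s ⟨by linarith [hs.1], by linarith [hs.2]⟩
      rw [le_div_iff₀ (by positivity)]
      simp only [hZdef] at h1
      have h3 : -κ * s ≤ -κ * (t0 / 2) := by nlinarith [hs.1]
      linarith
    have hsub2 : Icc (t0 / 2) t0 ⊆ Ioo 0 T := fun r hr => ⟨by linarith [hr.1], by linarith [hr.2]⟩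
    have h1 := (convex_Icc (t0 / 2) t0).image_sub_le_mul_sub_of_deriv_le (f := y)
      (fun r hr => ((hyd hg).1 r (hsub2 hr)).continuousAt.continuousWithinAt)
      (fun r hr => ((hyd hg).1 r (hsub2 (interior_subset hr))).differentiableWithinAt)
      (fun r hr => hdec r (interior_subset hr)) (t0 / 2) (left_mem_Icc.mpr (by linarith)) t0
      (right_mem_Icc.mpr (by linarith)) (by linarith)
    have h2 := hyI t0 ⟨ht0.le, hT⟩
    have h3 := hymax (t0 / 2) ⟨by linarith, by linarith⟩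
    have h4 : y (t0 / 2) ≤ M0 := by linarith
    have h5 : -(I + M0) ≤ (-κ * (t0 / 2) + I) / γ ^ 2 * (t0 / 2) := by
      have : t0 - t0 / 2 = t0 / 2 := by ring
      rw [this] at h1
      linarith
    have h6 : (-κ * (t0 / 2) + I) / γ ^ 2 * (t0 / 2) = (-κ * t0 ^ 2 / 4 + I * t0 / 2) / γ ^ 2 := by
      field_simp
      ring
    rw [h6, le_div_iff₀ (by positivity)] at h5
    have h7 : κ * t0 ^ 2 = 3 * I * t0 + 4 * γ ^ 2 * (I + M0) + t0 ^ 2 := by
      rw [hκ]; field_simp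
    nlinarith [mul_nonneg hI ht0.le, sq_pos_of_pos ht0]

theorem wt_int_nonneg : 0 ≤ ∫ x in (-1:ℝ)..1, wt x :=
  intervalIntegral.integral_nonneg (by norm_num) (fun x _ => wt_nonneg x)

/-- **Finite time singularity for large voltage.** -/
theorem main_bound (β τ γ ε : ℝ) (hβ : 0 < β) (hτ : 0 ≤ τ) (hγ : 0 ≤ γ) (hε : 0 < ε) (δ : ℝ)
    (hδ : 0 < δ) : ∃ lamStar : ℝ, ∀ lam : ℝ, lamStar < lam → ∀ (T : ℝ) (u : ℝ → ℝ → ℝ)
      (ψ : ℝ → ℝ × ℝ → ℝ) (G : ℝ → ℝ × ℝ → ℝ × ℝ), IsSolution β τ γ ε lam T u ψ G → T ≤ δ := by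
  obtain ⟨K, hK, hKw⟩ := wt_ineq hβ hτ
  set q : ℝ → ℝ := fun x => β * iteratedDeriv 4 wt x - τ * iteratedDeriv 2 wt x with hq
  set I := ∫ x in (-1:ℝ)..1, wt x with hI
  set Cq := ∫ x in (-1:ℝ)..1, q x with hCq
  have hI0 : 0 ≤ I := wt_int_nonneg
  have hwc : Continuous wt := wt_contDiff.continuous
  have hqc : Continuous q := by
    have h1 : Continuous (iteratedDeriv 4 wt) := wt_contDiff.continuous_iteratedDeriv 4 (by norm_num)
    have h2 : Continuous (iteratedDeriv 2 wt) := wt_contDiff.continuous_iteratedDeriv 2 (by norm_num)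
    simp only [hq]
    fun_prop
  obtain ⟨c, hc, hforce⟩ := force_bound hε hwc wt_nonneg (w0 := (5/16:ℝ)^5) (by norm_num) wt_lower
    (ρ := 3/4) (by norm_num) (fun x hx => wt_supp hx) (2 * (|Cq| + I))
  set t0 := min (min δ 1) (1 / (2 * K)) with ht0
  have hKpos : 0 < K := by linarith
  have ht0pos : 0 < t0 := lt_min (lt_min hδ one_pos) (by positivity)
  have ht0δ : t0 ≤ δ := (min_le_left _ _).trans (min_le_left _ _)
  have ht01 : t0 ≤ 1 := (min_le_left _ _).trans (min_le_right _ _)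
  have ht0K : K * t0 ≤ 1 / 2 := by
    have : t0 ≤ 1 / (2 * K) := min_le_right _ _
    calc K * t0 ≤ K * (1 / (2 * K)) := mul_le_mul_of_nonneg_left this hKpos.le
      _ = 1 / 2 := by field_simp
  set A := K * (2 * (|Cq| + I)) + Cq +
    (3 * I / t0 + 4 * γ ^ 2 * (I + 2 * (|Cq| + I)) / t0 ^ 2 + 1) with hA
  refine ⟨max 0 (A / c), ?_⟩
  intro lam hlam T u ψ G hsol
  by_contra hcon
  push Not at hcon
  have hlam0 : 0 ≤ lam := (le_max_left _ _).trans hlam.le
  have hlamA : A ≤ lam * c := by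
    have : A / c ≤ lam := (le_max_right _ _).trans hlam.le
    rwa [div_le_iff₀ hc] at this
  have hTpos : 0 < T := by linarith
  obtain ⟨w1, w2, w3⟩ := hsol.weak wt wt_contDiff wt_tsupport
  have hadm : ∀ t ∈ Ico 0 T, Adm (u t) := fun t ht =>
    ⟨hsol.reg t ht, hsol.above t ht, (hsol.clamped t ht).1, (hsol.clamped t ht).2.1⟩
  have hle1 : (-1:ℝ) ≤ 1 := by norm_num
  have ii : ∀ {f : ℝ → ℝ}, ContinuousOn f (Icc (-1:ℝ) 1) → IntervalIntegrable f volume (-1) 1 := by
    intro f hf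
    apply ContinuousOn.intervalIntegrable
    rwa [uIcc_of_le hle1]
  -- the mean of `1 + u`
  have hYI : ∀ t ∈ Ico 0 T, ∫ x in (-1:ℝ)..1, (1 + u t x) * wt x = moment u wt t + I := by
    intro t ht
    have hcu := (hadm t ht).cont
    have j1 : IntervalIntegrable (fun x => u t x * wt x) volume (-1) 1 :=
      ii (hcu.mul hwc.continuousOn)
    have j2 : IntervalIntegrable wt volume (-1) 1 := ii hwc.continuousOn
    unfold moment
    rw [hI, ← intervalIntegral.integral_add j1 j2]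
    apply intervalIntegral.integral_congr
    intro x _
    simp only
    ring
  refine ode_argument (γ := γ) (K := K) (Cq := Cq) (I := I) (c := c) (lam := lam) (t0 := t0) (T := T)
    (y := moment u wt) (N := fun t => ∫ x in (-1:ℝ)..1, u t x * q x)
    (F := fun t => ∫ x in (-1:ℝ)..1, gE ε (u t) (G t) x * wt x)
    hγ hK hI0 ht0pos ht0K ht01 (by linarith) hc hlam0 hlamA w1 ?_ ?_ w2 w3 ?_ ?_ ?_
  · unfold moment
    have : ∀ x ∈ uIcc (-1:ℝ) 1, u 0 x * wt x = 0 := by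
      intro x hx
      rw [uIcc_of_le hle1] at hx
      rw [hsol.initial hTpos x hx, zero_mul]
    rw [intervalIntegral.integral_congr this]
    simp
  · intro t ht
    have h1 : 0 ≤ ∫ x in (-1:ℝ)..1, (1 + u t x) * wt x := by
      apply intervalIntegral.integral_nonneg hle1
      intro x hx
      have := (hadm t ht).gt x hx
      exact mul_nonneg (by linarith) (wt_nonneg x)
    rw [hYI t ht] at h1
    linarith
  · intro t ht
    have ht' : t ∈ Ico 0 T := ⟨ht.1.le, ht.2⟩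
    have hcu := (hadm t ht').cont
    have h1 : -(∫ x in (-1:ℝ)..1, (1 + u t x) * q x)
        ≤ K * ∫ x in (-1:ℝ)..1, (1 + u t x) * wt x := by
      rw [← intervalIntegral.integral_neg, ← intervalIntegral.integral_const_mul]
      apply intervalIntegral.integral_mono_on hle1
      · exact (ii ((continuousOn_const.add hcu).mul hqc.continuousOn)).neg
      · exact ii (continuousOn_const.mul ((continuousOn_const.add hcu).mul hwc.continuousOn))
      · intro x hx
        have h2 := (hadm t ht').gt x hx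
        have h3 := hKw x
        have h4 : (1 + u t x) * (-(K * wt x)) ≤ (1 + u t x) * q x :=
          mul_le_mul_of_nonneg_left h3 (by linarith)
        linarith
    rw [hYI t ht'] at h1
    have h5 : ∫ x in (-1:ℝ)..1, (1 + u t x) * q x = Cq + ∫ x in (-1:ℝ)..1, u t x * q x := by
      have j1 : IntervalIntegrable q volume (-1) 1 := ii hqc.continuousOn
      have j2 : IntervalIntegrable (fun x => u t x * q x) volume (-1) 1 :=
        ii (hcu.mul hqc.continuousOn)
      rw [hCq, ← intervalIntegral.integral_add j1 j2]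
      apply intervalIntegral.integral_congr
      intro x _
      simp only
      ring
    rw [h5] at h1
    linarith
  · intro t ht
    exact intervalIntegral.integral_nonneg hle1
      (fun x _ => mul_nonneg (gE_nonneg x) (wt_nonneg x))
  · intro t ht hle
    have ht' : t ∈ Ico 0 T := ⟨ht.1.le, ht.2⟩
    exact hforce (u t) (ψ t) (G t) (hadm t ht') (hsol.potential t ht') (by rw [hYI t ht']; exact hle)

end Pool.Agent.H29.MEMS
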