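import Pool.Agent.H29.MEMS.Key2

open Set Topology Filter MeasureTheory

namespace Pool.Agent.H29.MEMS

variable {ε d : ℝ} {u : ℝ → ℝ} {ψ : ℝ × ℝ → ℝ} {G : ℝ × ℝ → ℝ × ℝ}

/-- the electrostatic force density `ε² ψ_x² + ψ_z²` on the top -/
noncomputable def gE (ε : ℝ) (u : ℝ → ℝ) (G : ℝ × ℝ → ℝ × ℝ) (x : ℝ) : ℝ :=
  ε ^ 2 * (G (x, u x)).1 ^ 2 + (G (x, u x)).2 ^ 2

noncomputable def Rt (ε d : ℝ) (u : ℝ → ℝ) (x : ℝ) : ℝ :=
  Real.exp (-(ε * Real.pi * (1 + u x))) * Real.cos (Real.pi * x) / d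

lemma gE_nonneg (x : ℝ) : 0 ≤ gE ε u G x := by unfold gE; positivity

lemma psi_top (hu : Adm u) (hψ : IsPotential ε u ψ G) {x : ℝ} (hx : x ∈ Icc (-1:ℝ) 1) :
    ψ (x, u x) = 1 := by
  have hgx := hu.gt x hx
  have hmem : (x, u x) ∈ CDom u := ⟨hx.1, hx.2, hgx.le, le_refl _⟩
  have hnot : (x, u x) ∉ Dom u := by
    intro hd; have := hd.2.2.2; simp only at this; linarith
  rw [hψ.bdry _ hmem hnot]; simp only
  exact div_self (by linarith)

lemma RR_top (hu : Adm u) (hψ : IsPotential ε u ψ G) {x : ℝ} (hx : x ∈ Icc (-1:ℝ) 1) :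
    RR ε d ψ (x, u x) = Rt ε d u x := by
  unfold RR VV vv Rt
  rw [psi_top hu hψ hx]
  simp

lemma gE_cont (hu : Adm u) (hψ : IsPotential ε u ψ G) : ContinuousOn (gE ε u G) (Ioo (-1) 1) := by
  have h1 : ContinuousOn (fun x : ℝ => (x, u x)) (Ioo (-1) 1) :=
    continuousOn_id.prodMk (hu.cont.mono Ioo_subset_Icc_self)
  have h2 : ContinuousOn (fun x : ℝ => G (x, u x)) (Ioo (-1) 1) :=
    hψ.gcont.comp h1 (fun x hx => ⟨hx.1, hx.2, hu.gt x ⟨hx.1.le, hx.2.le⟩, le_refl _⟩)
  unfold gE
  exact (continuousOn_const.mul (h2.fst.pow 2)).add (h2.snd.pow 2)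

lemma Rt_cont (hu : Adm u) : ContinuousOn (Rt ε d u) (Icc (-1) 1) := by
  have h1 : ContinuousOn (fun x => -(ε * Real.pi * (1 + u x))) (Icc (-1) 1) :=
    (continuousOn_const.mul (continuousOn_const.add hu.cont)).neg
  have h2 : ContinuousOn (fun x : ℝ => Real.cos (Real.pi * x)) (Icc (-1) 1) := by fun_prop
  unfold Rt
  exact (((Real.continuous_exp.comp_continuousOn h1).mul h2)).div_const d

lemma half_sub : Icc (-(1/2:ℝ)) (1/2) ⊆ Ioo (-1) 1 := fun x hx =>
  ⟨by linarith [hx.1], by linarith [hx.2]⟩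

theorem key_ineq (hε : 0 < ε) (hu : Adm u) (hψ : IsPotential ε u ψ G) (hd : 0 < d) :
    0 ≤ ∫ x in (-(1/2:ℝ))..(1/2), kk (Rt ε d u x) * (gE ε u G x - (ε * Real.pi * d) ^ 2) := by
  obtain ⟨z0, hz1, hz0⟩ := exists_z0 hu hψ hd
  obtain ⟨hF, hH⟩ := FH_cd (G := G) hε hu hψ hd hz1 hz0
  obtain ⟨hFc, hHc⟩ := FH_cont (G := G) hε hu hψ hd hz1 hz0
  have h1 := divergence_ineq (r := 1/2) (z0 := z0) hu.c1 (by norm_num) (by norm_num) hF hH hFc hHc
    (by
      intro p _ hp2
      unfold FF
      rw [if_neg]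
      intro hc
      linarith [hc.1])
    (fun p hp hp2 => vanish hε hu hψ hd hz0 hp (Or.inr hp2))
    (div_nonneg' hε hu hψ hd hz1 hz0)
  refine h1.trans ?_
  have hle : (-(1/2:ℝ)) ≤ 1/2 := by norm_num
  apply intervalIntegral.integral_mono_on hle
  · apply ContinuousOn.intervalIntegrable
    rw [uIcc_of_le hle]
    have hcurve : ContinuousOn (fun x : ℝ => (x, u x)) (Icc (-(1/2:ℝ)) (1/2)) :=
      continuousOn_id.prodMk (hu.cont.mono (half_sub.trans Ioo_subset_Icc_self))
    have hm : MapsTo (fun x : ℝ => (x, u x)) (Icc (-(1/2:ℝ)) (1/2)) (CLow u) := fun x hx =>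
      ⟨(half_sub hx).1, (half_sub hx).2, le_refl _⟩
    exact (hHc.comp hcurve hm).sub
      (((deriv_cont hu.c1).mono half_sub).mul (hFc.comp hcurve hm))
  · apply ContinuousOn.intervalIntegrable
    rw [uIcc_of_le hle]
    exact (kk_contDiff.continuous.comp_continuousOn
      ((Rt_cont hu).mono (half_sub.trans Ioo_subset_Icc_self))).mul
      (((gE_cont hu hψ).mono half_sub).sub continuousOn_const)
  · intro x hx
    have hx1 := half_sub hx
    have hx2 : x ∈ Icc (-1:ℝ) 1 := Ioo_subset_Icc_self hx1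
    have hR := RR_top (d := d) hu hψ hx2
    by_cases hlt : |x| < 1 / 2
    · have hc : |((x, u x) : ℝ × ℝ).1| < 1 / 2 ∧ -1 < ((x, u x) : ℝ × ℝ).2 :=
        ⟨hlt, hu.gt x hx2⟩
      have e1 : FF ε d ψ G (x, u x) = kk (RR ε d ψ (x, u x)) * X1 ε d ψ G (x, u x) := by
        unfold FF; rw [if_pos hc]
      have e2 : HH ε d ψ G (x, u x) = kk (RR ε d ψ (x, u x)) * X2 ε d ψ G (x, u x) := by
        unfold HH; rw [if_pos hc]
      rw [e1, e2, hR]
      have hv : vv d ψ (x, u x) = d := by unfold vv; rw [psi_top hu hψ hx2]; ring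
      have htop := top_identity hu hψ hx1
      unfold X1 X2 PP gE
      rw [hv]
      simp only
      set T := Real.tan (Real.pi * x)
      set P := (G (x, u x)).1
      set Q := (G (x, u x)).2
      set k := kk (Rt ε d u x) with hk
      have hk0 : 0 ≤ k := kk_nonneg _
      have e3 : k * (Q ^ 2 - ε ^ 2 * (P - Real.pi * T * d) ^ 2 - (ε * Real.pi * d) ^ 2) -
          deriv u x * (k * (2 * ε ^ 2 * Q * (P - Real.pi * T * d)))
          = k * (ε ^ 2 * P ^ 2 + Q ^ 2 - (ε * Real.pi * d) ^ 2) - k * (ε * Real.pi * T * d) ^ 2 := by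
        linear_combination (-2 * ε ^ 2 * k * (P - Real.pi * T * d)) * htop
      rw [e3]
      have : 0 ≤ k * (ε * Real.pi * T * d) ^ 2 := by positivity
      linarith
    · have hx3 : |x| = 1 / 2 := le_antisymm (abs_le.mpr ⟨by linarith [hx.1], hx.2⟩) (not_lt.mp hlt)
      have e1 : FF ε d ψ G (x, u x) = 0 := by
        unfold FF; rw [if_neg]; intro hc; exact hlt hc.1
      have e2 : HH ε d ψ G (x, u x) = 0 := by
        unfold HH; rw [if_neg]; intro hc; exact hlt hc.1
      have hcos : Real.cos (Real.pi * x) = 0 := by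
        rcases abs_cases x with ⟨h, _⟩ | ⟨h, _⟩
        · have : x = 1 / 2 := by linarith
          rw [this]
          have : Real.pi * (1 / 2) = Real.pi / 2 := by ring
          rw [this, Real.cos_pi_div_two]
        · have : x = -(1 / 2) := by linarith
          rw [this]
          have : Real.pi * (-(1 / 2)) = -(Real.pi / 2) := by ring
          rw [this, Real.cos_neg, Real.cos_pi_div_two]
      have e3 : Rt ε d u x = 0 := by unfold Rt; rw [hcos]; simp
      rw [e1, e2, e3, kk_eq_zero (by norm_num)]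
      simp

lemma kk_ge_log {R : ℝ} (hR : 0 < R) : 2 * Real.log R - 1 ≤ kk R := by
  have h1 := Real.log_le_sub_one_of_pos hR
  unfold kk
  rcases le_total (R - 1) 0 with h | h
  · rw [max_eq_right h]
    linarith [Real.log_nonpos hR.le (by linarith)]
  · rw [max_eq_left h]
    nlinarith [sq_nonneg (R - 1 - 1)]

/-- **Lower bound of the force.** -/
theorem force_bound (hε : 0 < ε) {w : ℝ → ℝ} {w0 ρ : ℝ} (hw : Continuous w) (hwn : ∀ x, 0 ≤ w x)
    (hw0 : 0 < w0) (hwl : ∀ x ∈ Icc (-(1/2:ℝ)) (1/2), w0 ≤ w x) (hρ : ρ < 1)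
    (hsupp : ∀ x, ρ ≤ |x| → w x = 0) (M : ℝ) :
    ∃ c : ℝ, 0 < c ∧ ∀ (u : ℝ → ℝ) (ψ : ℝ × ℝ → ℝ) (G : ℝ × ℝ → ℝ × ℝ), Adm u →
      IsPotential ε u ψ G → ∫ x in (-1:ℝ)..1, (1 + u x) * w x ≤ M →
      c ≤ ∫ x in (-1:ℝ)..1, gE ε u G x * w x := by
  set L := Real.log (Real.cos (Real.pi * (1 / 4))) with hL
  set d := Real.exp (L - 2 * (ε * Real.pi) * (|M| / w0) - 3 / 2) with hd
  have hd0 : 0 < d := Real.exp_pos _
  have hpi := Real.pi_pos
  refine ⟨d ^ 2 * w0 * (ε * Real.pi * d) ^ 2, by positivity, ?_⟩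
  intro u ψ G hu hψ hM
  have hkey := key_ineq hε hu hψ hd0
  have hle : (-(1/2:ℝ)) ≤ 1/2 := by norm_num
  have hle4 : (-(1/4:ℝ)) ≤ 1/4 := by norm_num
  have hle1 : (-1:ℝ) ≤ 1 := by norm_num
  have hsub4 : Icc (-(1/4:ℝ)) (1/4) ⊆ Icc (-(1/2:ℝ)) (1/2) := fun x hx =>
    ⟨by linarith [hx.1], by linarith [hx.2]⟩
  -- continuity facts
  have ckR : ContinuousOn (fun x => kk (Rt ε d u x)) (Icc (-(1/2:ℝ)) (1/2)) :=
    kk_contDiff.continuous.comp_continuousOn ((Rt_cont hu).mono (half_sub.trans Ioo_subset_Icc_self))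
  have cg : ContinuousOn (gE ε u G) (Icc (-(1/2:ℝ)) (1/2)) := (gE_cont hu hψ).mono half_sub
  have ii : ∀ {f : ℝ → ℝ}, ContinuousOn f (Icc (-(1/2:ℝ)) (1/2)) →
      IntervalIntegrable f volume (-(1/2)) (1/2) := by
    intro f hf
    apply ContinuousOn.intervalIntegrable
    rwa [uIcc_of_le hle]
  have ii4 : ∀ {f : ℝ → ℝ}, ContinuousOn f (Icc (-(1/2:ℝ)) (1/2)) →
      IntervalIntegrable f volume (-(1/4)) (1/4) := by
    intro f hf
    apply ContinuousOn.intervalIntegrable
    rw [uIcc_of_le hle4]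
    exact hf.mono hsub4
  -- (1) split the key inequality
  have h1 : (ε * Real.pi * d) ^ 2 * ∫ x in (-(1/2:ℝ))..(1/2), kk (Rt ε d u x)
      ≤ ∫ x in (-(1/2:ℝ))..(1/2), kk (Rt ε d u x) * gE ε u G x := by
    have e : ∫ x in (-(1/2:ℝ))..(1/2), kk (Rt ε d u x) * (gE ε u G x - (ε * Real.pi * d) ^ 2)
        = (∫ x in (-(1/2:ℝ))..(1/2), kk (Rt ε d u x) * gE ε u G x)
          - ∫ x in (-(1/2:ℝ))..(1/2), (ε * Real.pi * d) ^ 2 * kk (Rt ε d u x) := by
      have j1 : IntervalIntegrable (fun x => kk (Rt ε d u x) * gE ε u G x) volume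
          (-(1/2)) (1/2) := ii (ckR.mul cg)
      have j2 : IntervalIntegrable (fun x => (ε * Real.pi * d) ^ 2 * kk (Rt ε d u x)) volume
          (-(1/2)) (1/2) := ii (continuousOn_const.mul ckR)
      rw [← intervalIntegral.integral_sub j1 j2]
      apply intervalIntegral.integral_congr
      intro x _
      simp only
      ring
    rw [e, intervalIntegral.integral_const_mul] at hkey
    linarith
  -- (2) upper bound by the force
  have cgw : ContinuousOn (fun x => gE ε u G x * w x) (Icc (-1:ℝ) 1) := by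
    intro x hx
    by_cases hx1 : ρ < |x|
    · have : (fun x => gE ε u G x * w x) =ᶠ[𝓝 x] fun _ => 0 := by
        have c1 : ContinuousAt (fun x : ℝ => |x|) x := by fun_prop
        filter_upwards [c1.tendsto.eventually (lt_mem_nhds hx1)] with y hy
        rw [hsupp y (le_of_lt hy), mul_zero]
      exact (continuousAt_const.congr_of_eventuallyEq this).continuousWithinAt
    · have h2 : x ∈ Ioo (-1:ℝ) 1 := abs_lt.mp (lt_of_le_of_lt (not_lt.mp hx1) hρ)
      have h3 := (gE_cont hu hψ).continuousAt (Ioo_mem_nhds h2.1 h2.2)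
      exact (h3.mul hw.continuousAt).continuousWithinAt
  have h2 : ∫ x in (-(1/2:ℝ))..(1/2), kk (Rt ε d u x) * gE ε u G x
      ≤ (1 / (d ^ 2 * w0)) * ∫ x in (-1:ℝ)..1, gE ε u G x * w x := by
    have hRle : ∀ x ∈ Icc (-(1/2:ℝ)) (1/2), kk (Rt ε d u x) ≤ 1 / d ^ 2 := by
      intro x hx
      have hx2 : x ∈ Icc (-1:ℝ) 1 := Ioo_subset_Icc_self (half_sub hx)
      have hcos0 : 0 ≤ Real.cos (Real.pi * x) := by
        apply Real.cos_nonneg_of_mem_Icc
        constructor <;> nlinarith [hx.1, hx.2]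
      have hcos1 := Real.cos_le_one (Real.pi * x)
      have hexp : Real.exp (-(ε * Real.pi * (1 + u x))) ≤ 1 := by
        apply Real.exp_le_one_iff.mpr
        have := hu.gt x hx2
        have h3 : 0 ≤ 1 + u x := by linarith
        have : 0 ≤ ε * Real.pi * (1 + u x) := by positivity
        linarith
      have hexp0 := (Real.exp_pos (-(ε * Real.pi * (1 + u x)))).le
      have hR1 : Rt ε d u x ≤ 1 / d := by
        unfold Rt
        apply div_le_div_of_nonneg_right _ hd0.le
        nlinarith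
      have hR0 : 0 ≤ Rt ε d u x := by unfold Rt; positivity
      unfold kk
      rw [one_div, ← inv_pow, ← one_div]
      apply pow_le_pow_left₀ (le_max_right _ _)
      apply max_le
      · linarith
      · positivity
    have s1 : ∫ x in (-(1/2:ℝ))..(1/2), kk (Rt ε d u x) * gE ε u G x
        ≤ ∫ x in (-(1/2:ℝ))..(1/2), (1 / (d ^ 2 * w0)) * (gE ε u G x * w x) := by
      apply intervalIntegral.integral_mono_on hle (ii (ckR.mul cg))
        (ii (continuousOn_const.mul (cg.mul hw.continuousOn)))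
      intro x hx
      have a1 := hRle x hx
      have a2 := hwl x hx
      have a3 : 0 ≤ gE ε u G x := gE_nonneg x
      calc kk (Rt ε d u x) * gE ε u G x ≤ 1 / d ^ 2 * gE ε u G x :=
            mul_le_mul_of_nonneg_right a1 a3
        _ = 1 / (d ^ 2 * w0) * (gE ε u G x * w0) := by field_simp
        _ ≤ 1 / (d ^ 2 * w0) * (gE ε u G x * w x) := by
            apply mul_le_mul_of_nonneg_left _ (by positivity)
            exact mul_le_mul_of_nonneg_left a2 a3
    rw [intervalIntegral.integral_const_mul] at s1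
    refine s1.trans (mul_le_mul_of_nonneg_left ?_ (by positivity))
    -- enlarge the interval
    have i1 : IntervalIntegrable (fun x => gE ε u G x * w x) volume (-1) 1 := by
      apply ContinuousOn.intervalIntegrable
      rwa [uIcc_of_le hle1]
    exact intervalIntegral.integral_mono_interval (by norm_num) hle (by norm_num)
      (Eventually.of_forall fun x => mul_nonneg (gE_nonneg x) (hwn x)) i1
  -- (3) lower bound of the mean of `kk`
  have h3 : 1 ≤ ∫ x in (-(1/2:ℝ))..(1/2), kk (Rt ε d u x) := by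
    have s0 : ∫ x in (-(1/4:ℝ))..(1/4), kk (Rt ε d u x)
        ≤ ∫ x in (-(1/2:ℝ))..(1/2), kk (Rt ε d u x) :=
      intervalIntegral.integral_mono_interval (by norm_num) hle4 (by norm_num)
        (Eventually.of_forall fun x => kk_nonneg _) (ii ckR)
    have cu : ContinuousOn u (Icc (-(1/2:ℝ)) (1/2)) :=
      hu.cont.mono (half_sub.trans Ioo_subset_Icc_self)
    have s1 : ∫ x in (-(1/4:ℝ))..(1/4), (2 * (L - Real.log d) - 1 - 2 * (ε * Real.pi) * (1 + u x))
        ≤ ∫ x in (-(1/4:ℝ))..(1/4), kk (Rt ε d u x) := by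
      apply intervalIntegral.integral_mono_on hle4 _ (ii4 ckR)
      · intro x hx
        have hcos4 : 0 < Real.cos (Real.pi * (1 / 4)) := by
          apply Real.cos_pos_of_mem_Ioo
          constructor <;> nlinarith
        have hcosx : Real.cos (Real.pi * (1 / 4)) ≤ Real.cos (Real.pi * x) := by
          rw [← Real.cos_abs (Real.pi * x)]
          apply Real.cos_le_cos_of_nonneg_of_le_pi (abs_nonneg _)
          · nlinarith
          · rw [abs_mul, abs_of_pos hpi]
            apply mul_le_mul_of_nonneg_left _ hpi.le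
            exact abs_le.mpr ⟨by linarith [hx.1], hx.2⟩
        have hcx : 0 < Real.cos (Real.pi * x) := lt_of_lt_of_le hcos4 hcosx
        have hRpos : 0 < Rt ε d u x := by unfold Rt; positivity
        have hlog : Real.log (Rt ε d u x)
            = -(ε * Real.pi * (1 + u x)) + Real.log (Real.cos (Real.pi * x)) - Real.log d := by
          unfold Rt
          rw [Real.log_div (by positivity) hd0.ne', Real.log_mul (Real.exp_pos _).ne' hcx.ne',
            Real.log_exp]
        have hl2 : L ≤ Real.log (Real.cos (Real.pi * x)) := Real.log_le_log hcos4 hcosx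
        have := kk_ge_log hRpos
        rw [hlog] at this
        linarith
      · exact ii4 ((continuousOn_const).sub (continuousOn_const.mul (continuousOn_const.add cu)))
    have s2 : ∫ x in (-(1/4:ℝ))..(1/4), (2 * (L - Real.log d) - 1 - 2 * (ε * Real.pi) * (1 + u x))
        = (1/2) * (2 * (L - Real.log d) - 1)
          - 2 * (ε * Real.pi) * ∫ x in (-(1/4:ℝ))..(1/4), (1 + u x) := by
      have j1 : IntervalIntegrable (fun _ : ℝ => 2 * (L - Real.log d) - 1) volume
          (-(1/4)) (1/4) := ii4 continuousOn_const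
      have j2 : IntervalIntegrable (fun x => 2 * (ε * Real.pi) * (1 + u x)) volume
          (-(1/4)) (1/4) := ii4 (continuousOn_const.mul (continuousOn_const.add cu))
      rw [intervalIntegral.integral_sub j1 j2,
        intervalIntegral.integral_const, intervalIntegral.integral_const_mul]
      simp only [smul_eq_mul]
      ring
    have s3 : ∫ x in (-(1/4:ℝ))..(1/4), (1 + u x) ≤ |M| / w0 := by
      have t1 : ∫ x in (-(1/4:ℝ))..(1/4), (1 + u x)
          ≤ ∫ x in (-(1/4:ℝ))..(1/4), (1 / w0) * ((1 + u x) * w x) := by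
        apply intervalIntegral.integral_mono_on hle4 (ii4 (continuousOn_const.add cu))
          (ii4 (continuousOn_const.mul ((continuousOn_const.add cu).mul hw.continuousOn)))
        intro x hx
        have a2 := hwl x (hsub4 hx)
        have a3 : 0 ≤ 1 + u x := by
          have := hu.gt x (Ioo_subset_Icc_self (half_sub (hsub4 hx))); linarith
        calc 1 + u x = 1 / w0 * ((1 + u x) * w0) := by field_simp
          _ ≤ 1 / w0 * ((1 + u x) * w x) := by
            apply mul_le_mul_of_nonneg_left _ (by positivity)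
            exact mul_le_mul_of_nonneg_left a2 a3
      rw [intervalIntegral.integral_const_mul] at t1
      have i1 : IntervalIntegrable (fun x => (1 + u x) * w x) volume (-1) 1 := by
        apply ContinuousOn.intervalIntegrable
        rw [uIcc_of_le hle1]
        exact (continuousOn_const.add hu.cont).mul hw.continuousOn
      have t2 : ∫ x in (-(1/4:ℝ))..(1/4), (1 + u x) * w x ≤ ∫ x in (-1:ℝ)..1, (1 + u x) * w x := by
        apply intervalIntegral.integral_mono_interval (by norm_num) hle4 (by norm_num) _ i1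
        have hm : MeasurableSet (Ioc (-1:ℝ) 1) := measurableSet_Ioc
        filter_upwards [ae_restrict_mem hm] with x hx
        have := hu.gt x ⟨hx.1.le, hx.2⟩
        exact mul_nonneg (by linarith) (hwn x)
      have t3 : ∫ x in (-(1/4:ℝ))..(1/4), (1 + u x) * w x ≤ |M| :=
        (t2.trans hM).trans (le_abs_self M)
      calc ∫ x in (-(1/4:ℝ))..(1/4), (1 + u x)
          ≤ 1 / w0 * ∫ x in (-(1/4:ℝ))..(1/4), (1 + u x) * w x := t1
        _ ≤ 1 / w0 * |M| := mul_le_mul_of_nonneg_left t3 (by positivity)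
        _ = |M| / w0 := by ring
    have hlogd : Real.log d = L - 2 * (ε * Real.pi) * (|M| / w0) - 3 / 2 := by
      rw [hd, Real.log_exp]
    have s4 : 2 * (ε * Real.pi) * ∫ x in (-(1/4:ℝ))..(1/4), (1 + u x)
        ≤ 2 * (ε * Real.pi) * (|M| / w0) := mul_le_mul_of_nonneg_left s3 (by positivity)
    rw [s2, hlogd] at s1
    linarith
  -- conclusion
  have h4 : (ε * Real.pi * d) ^ 2 ≤ (1 / (d ^ 2 * w0)) * ∫ x in (-1:ℝ)..1, gE ε u G x * w x := by
    have : (ε * Real.pi * d) ^ 2 * 1 ≤ (ε * Real.pi * d) ^ 2 *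
        ∫ x in (-(1/2:ℝ))..(1/2), kk (Rt ε d u x) := mul_le_mul_of_nonneg_left h3 (by positivity)
    linarith
  have h5 : 0 < d ^ 2 * w0 := by positivity
  calc d ^ 2 * w0 * (ε * Real.pi * d) ^ 2
      ≤ d ^ 2 * w0 * ((1 / (d ^ 2 * w0)) * ∫ x in (-1:ℝ)..1, gE ε u G x * w x) :=
        mul_le_mul_of_nonneg_left h4 h5.le
    _ = ∫ x in (-1:ℝ)..1, gE ε u G x * w x := by field_simp

end Pool.Agent.H29.MEMS
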