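import Pool.Agent.H29.MEMS.Calc

open Set Topology Filter MeasureTheory

namespace Pool.Agent.H29.MEMS

/-- `max (R - 1) 0 ^ 2` -/
noncomputable def kk (R : ℝ) : ℝ := max (R - 1) 0 ^ 2

lemma kk_hasDerivAt (R : ℝ) : HasDerivAt kk (2 * max (R - 1) 0) R := by
  rcases lt_trichotomy R 1 with h | h | h
  · have h1 : kk =ᶠ[𝓝 R] fun _ => 0 := by
      filter_upwards [gt_mem_nhds h] with x hx
      unfold kk
      rw [max_eq_right (by linarith)]; simp
    rw [max_eq_right (by linarith), mul_zero]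
    exact (hasDerivAt_const R (0:ℝ)).congr_of_eventuallyEq h1
  · subst h
    have h0 : (2:ℝ) * max (1 - 1) 0 = 0 := by simp
    rw [h0]
    rw [hasDerivAt_iff_isLittleO]
    have e : ∀ x : ℝ, ‖kk x - kk 1 - (x - 1) • (0:ℝ)‖ ≤ ‖(x - 1) ^ 2‖ := by
      intro x
      have : kk 1 = 0 := by simp [kk]
      rw [this]
      simp only [smul_eq_mul, mul_zero, sub_zero, norm_pow]
      unfold kk
      rw [norm_pow]
      apply pow_le_pow_left₀ (norm_nonneg _)
      rw [Real.norm_eq_abs, Real.norm_eq_abs]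
      rcases le_total (x - 1) 0 with h | h
      · rw [max_eq_right h]; simp
      · rw [max_eq_left h]
    refine Asymptotics.IsBigO.trans_isLittleO (Asymptotics.IsBigO.of_bound 1 ?_)
      (g := fun x : ℝ => (x - 1) ^ 2) ?_
    · filter_upwards with x
      rw [one_mul]; exact e x
    · have h1 : Tendsto (fun x : ℝ => x - 1) (𝓝 1) (𝓝 0) := by
        have : ContinuousAt (fun x : ℝ => x - 1) 1 := by fun_prop
        simpa using this.tendsto
      have h2 := (Asymptotics.isLittleO_pow_id (𝕜 := ℝ) one_lt_two).comp_tendsto h1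
      simpa [Function.comp_def] using h2
  · have h1 : kk =ᶠ[𝓝 R] fun x => (x - 1) ^ 2 := by
      filter_upwards [lt_mem_nhds h] with x hx
      unfold kk
      rw [max_eq_left (by linarith)]
    rw [max_eq_left (by linarith)]
    have h2 : HasDerivAt (fun x : ℝ => (x - 1) ^ 2) (2 * (R - 1)) R := by
      have := ((hasDerivAt_id R).sub_const 1).pow 2
      refine this.congr_deriv ?_
      simp
    exact h2.congr_of_eventuallyEq h1

lemma kk_contDiff : ContDiff ℝ 1 kk := by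
  rw [contDiff_one_iff_deriv]
  refine ⟨fun x => (kk_hasDerivAt x).differentiableAt, ?_⟩
  have : deriv kk = fun R => 2 * max (R - 1) 0 := by
    ext R; exact (kk_hasDerivAt R).deriv
  rw [this]
  fun_prop

lemma kk_nonneg (R : ℝ) : 0 ≤ kk R := sq_nonneg _

lemma kk_eq_zero {R : ℝ} (h : R ≤ 1) : kk R = 0 := by
  unfold kk; rw [max_eq_right (by linarith)]; simp

/-- the comparison harmonic function -/
noncomputable def VV (ε : ℝ) (p : ℝ × ℝ) : ℝ :=
  Real.exp (-(ε * Real.pi * (1 + p.2))) * Real.cos (Real.pi * p.1)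

noncomputable def vv (d : ℝ) (ψ : ℝ × ℝ → ℝ) (p : ℝ × ℝ) : ℝ := 1 + d - ψ p

noncomputable def RR (ε d : ℝ) (ψ : ℝ × ℝ → ℝ) (p : ℝ × ℝ) : ℝ := VV ε p / vv d ψ p

noncomputable def PP (d : ℝ) (ψ : ℝ × ℝ → ℝ) (G : ℝ × ℝ → ℝ × ℝ) (p : ℝ × ℝ) : ℝ :=
  (G p).1 - Real.pi * Real.tan (Real.pi * p.1) * vv d ψ p

noncomputable def X1 (ε d : ℝ) (ψ : ℝ × ℝ → ℝ) (G : ℝ × ℝ → ℝ × ℝ) (p : ℝ × ℝ) : ℝ :=
  2 * ε ^ 2 * (G p).2 * PP d ψ G p

noncomputable def X2 (ε d : ℝ) (ψ : ℝ × ℝ → ℝ) (G : ℝ × ℝ → ℝ × ℝ) (p : ℝ × ℝ) : ℝ :=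
  (G p).2 ^ 2 - ε ^ 2 * PP d ψ G p ^ 2 - (ε * Real.pi * vv d ψ p) ^ 2

open Classical in
noncomputable def FF (ε d : ℝ) (ψ : ℝ × ℝ → ℝ) (G : ℝ × ℝ → ℝ × ℝ) (p : ℝ × ℝ) : ℝ :=
  if |p.1| < 1 / 2 ∧ -1 < p.2 then kk (RR ε d ψ p) * X1 ε d ψ G p else 0

open Classical in
noncomputable def HH (ε d : ℝ) (ψ : ℝ × ℝ → ℝ) (G : ℝ × ℝ → ℝ × ℝ) (p : ℝ × ℝ) : ℝ :=
  if |p.1| < 1 / 2 ∧ -1 < p.2 then kk (RR ε d ψ p) * X2 ε d ψ G p else 0

variable {ε d : ℝ} {u : ℝ → ℝ} {ψ : ℝ × ℝ → ℝ} {G : ℝ × ℝ → ℝ × ℝ}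

lemma cos_pos_of {x : ℝ} (hx : |x| < 1 / 2) : 0 < Real.cos (Real.pi * x) := by
  apply Real.cos_pos_of_mem_Ioo
  have := abs_lt.mp hx
  have hpi := Real.pi_pos
  constructor <;> nlinarith

/-- slice derivatives of the comparison quotient -/
lemma alg_x (hu : Adm u) (hψ : IsPotential ε u ψ G) (hd : 0 < d) (hε : 0 < ε) {p : ℝ × ℝ}
    (hp : p ∈ Dom u) (hx : |p.1| < 1 / 2) {Px Pz : ℝ}
    (hPx : HasDerivAt (fun x => (G (x, p.2)).1) Px p.1)
    (hQx : HasDerivAt (fun x => (G (x, p.2)).2) Pz p.1) :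
    HasDerivAt (fun x => kk (RR ε d ψ (x, p.2)) * X1 ε d ψ G (x, p.2))
      (2 * max (RR ε d ψ p - 1) 0 * (RR ε d ψ p * PP d ψ G p / vv d ψ p) * X1 ε d ψ G p
        + kk (RR ε d ψ p) * (2 * ε ^ 2 * (Pz * PP d ψ G p + (G p).2 *
          (Px - (Real.pi * (Real.pi * (1 + Real.tan (Real.pi * p.1) ^ 2)) * vv d ψ p
            + Real.pi * Real.tan (Real.pi * p.1) * (-(G p).1)))))) p.1 := by
  have hcos : Real.cos (Real.pi * p.1) ≠ 0 := (cos_pos_of hx).ne'
  have hvpos : 0 < vv d ψ p := by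
    have := psi_le_one hε hu hψ p (Dom_subset u hp); unfold vv; linarith
  have hv : HasDerivAt (fun x => vv d ψ (x, p.2)) (-(G p).1) p.1 := by
    have h1 := slice_deriv_fst (hfd hu hψ hp)
    rw [G_eq hu hψ hp]
    exact h1.const_sub (1 + d)
  have hlin : HasDerivAt (fun x : ℝ => Real.pi * x) Real.pi p.1 := by
    simpa using (hasDerivAt_id p.1).const_mul Real.pi
  have htan : HasDerivAt (fun x : ℝ => Real.tan (Real.pi * x))
      (Real.pi * (1 + Real.tan (Real.pi * p.1) ^ 2)) p.1 := by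
    have h1 := (Real.hasDerivAt_tan hcos).comp p.1 hlin
    refine h1.congr_deriv ?_
    rw [Real.tan_eq_sin_div_cos]
    field_simp
    have := Real.sin_sq_add_cos_sq (Real.pi * p.1)
    linarith
  have hV : HasDerivAt (fun x => VV ε (x, p.2))
      (-(Real.pi * Real.tan (Real.pi * p.1)) * VV ε p) p.1 := by
    have h1 := ((Real.hasDerivAt_cos (Real.pi * p.1)).comp p.1 hlin).const_mul
      (Real.exp (-(ε * Real.pi * (1 + p.2))))
    refine h1.congr_deriv ?_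
    unfold VV
    rw [Real.tan_eq_sin_div_cos]
    field_simp
  have hR : HasDerivAt (fun x => RR ε d ψ (x, p.2))
      (RR ε d ψ p * PP d ψ G p / vv d ψ p) p.1 := by
    have h1 := hV.div hv (by simpa using hvpos.ne')
    refine h1.congr_deriv ?_
    unfold RR PP
    field_simp
    ring
  have hkR : HasDerivAt (fun x => kk (RR ε d ψ (x, p.2)))
      (2 * max (RR ε d ψ p - 1) 0 * (RR ε d ψ p * PP d ψ G p / vv d ψ p)) p.1 :=
    (kk_hasDerivAt _).comp p.1 hR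
  have hP : HasDerivAt (fun x => PP d ψ G (x, p.2))
      (Px - (Real.pi * (Real.pi * (1 + Real.tan (Real.pi * p.1) ^ 2)) * vv d ψ p
            + Real.pi * Real.tan (Real.pi * p.1) * (-(G p).1))) p.1 :=
    hPx.sub ((htan.const_mul Real.pi).mul hv)
  have hX : HasDerivAt (fun x => X1 ε d ψ G (x, p.2))
      (2 * ε ^ 2 * (Pz * PP d ψ G p + (G p).2 *
          (Px - (Real.pi * (Real.pi * (1 + Real.tan (Real.pi * p.1) ^ 2)) * vv d ψ p
            + Real.pi * Real.tan (Real.pi * p.1) * (-(G p).1))))) p.1 := by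
    have h1 := (hQx.const_mul (2 * ε ^ 2)).mul hP
    refine h1.congr_deriv ?_
    simp only [Prod.mk.eta]
    ring
  exact hkR.mul hX

lemma alg_z (hu : Adm u) (hψ : IsPotential ε u ψ G) (hd : 0 < d) (hε : 0 < ε) {p : ℝ × ℝ}
    (hp : p ∈ Dom u) {Pz Qz : ℝ}
    (hPz : HasDerivAt (fun z => (G (p.1, z)).1) Pz p.2)
    (hQz : HasDerivAt (fun z => (G (p.1, z)).2) Qz p.2) :
    HasDerivAt (fun z => kk (RR ε d ψ (p.1, z)) * X2 ε d ψ G (p.1, z))
      (2 * max (RR ε d ψ p - 1) 0 *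
          (RR ε d ψ p * ((G p).2 - ε * Real.pi * vv d ψ p) / vv d ψ p) * X2 ε d ψ G p
        + kk (RR ε d ψ p) * (2 * (G p).2 * Qz
          - ε ^ 2 * (2 * PP d ψ G p * (Pz + Real.pi * Real.tan (Real.pi * p.1) * (G p).2))
          + 2 * (ε * Real.pi) ^ 2 * vv d ψ p * (G p).2)) p.2 := by
  have hvpos : 0 < vv d ψ p := by
    have := psi_le_one hε hu hψ p (Dom_subset u hp); unfold vv; linarith
  have hv : HasDerivAt (fun z => vv d ψ (p.1, z)) (-(G p).2) p.2 := by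
    have h1 := slice_deriv_snd (hfd hu hψ hp)
    rw [G_eq hu hψ hp]
    exact h1.const_sub (1 + d)
  have hV : HasDerivAt (fun z => VV ε (p.1, z)) (-(ε * Real.pi) * VV ε p) p.2 := by
    have h0 : HasDerivAt (fun z : ℝ => -(ε * Real.pi * (1 + z))) (-(ε * Real.pi)) p.2 := by
      have := (((hasDerivAt_id p.2).const_add 1).const_mul (ε * Real.pi)).neg
      refine this.congr_deriv ?_
      simp
    have h1 := (((Real.hasDerivAt_exp _).comp p.2 h0)).mul_const (Real.cos (Real.pi * p.1))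
    refine h1.congr_deriv ?_
    unfold VV
    ring
  have hR : HasDerivAt (fun z => RR ε d ψ (p.1, z))
      (RR ε d ψ p * ((G p).2 - ε * Real.pi * vv d ψ p) / vv d ψ p) p.2 := by
    have h1 := hV.div hv (by simpa using hvpos.ne')
    refine h1.congr_deriv ?_
    unfold RR
    field_simp
    ring
  have hkR : HasDerivAt (fun z => kk (RR ε d ψ (p.1, z)))
      (2 * max (RR ε d ψ p - 1) 0 *
        (RR ε d ψ p * ((G p).2 - ε * Real.pi * vv d ψ p) / vv d ψ p)) p.2 :=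
    (kk_hasDerivAt _).comp p.2 hR
  have hP : HasDerivAt (fun z => PP d ψ G (p.1, z))
      (Pz + Real.pi * Real.tan (Real.pi * p.1) * (G p).2) p.2 := by
    have h1 := hPz.sub (hv.const_mul (Real.pi * Real.tan (Real.pi * p.1)))
    refine h1.congr_deriv ?_
    ring
  have hX : HasDerivAt (fun z => X2 ε d ψ G (p.1, z))
      (2 * (G p).2 * Qz
          - ε ^ 2 * (2 * PP d ψ G p * (Pz + Real.pi * Real.tan (Real.pi * p.1) * (G p).2))
          + 2 * (ε * Real.pi) ^ 2 * vv d ψ p * (G p).2) p.2 := by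
    have h1 := ((hQz.pow 2).sub ((hP.pow 2).const_mul (ε ^ 2))).sub ((hv.const_mul (ε * Real.pi)).pow 2)
    refine h1.congr_deriv ?_
    simp only [Prod.mk.eta, Nat.cast_ofNat]
    ring
  exact hkR.mul hX

end Pool.Agent.H29.MEMS
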