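import Pool.Agent.H29.MEMS.Key

open Set Topology Filter MeasureTheory

namespace Pool.Agent.H29.MEMS

variable {ε d : ℝ} {u : ℝ → ℝ} {ψ : ℝ × ℝ → ℝ} {G : ℝ × ℝ → ℝ × ℝ}

lemma exists_z0 (hu : Adm u) (hψ : IsPotential ε u ψ G) (hd : 0 < d) :
    ∃ z0 : ℝ, -1 < z0 ∧ ∀ p ∈ CDom u, p.2 ≤ z0 → ψ p < d := by
  by_cases hne : (CDom u ∩ ψ ⁻¹' Ici d).Nonempty
  · have hcl : IsCompact (CDom u ∩ ψ ⁻¹' Ici d) := by
      have hK := isCompact_CDom hu.cont
      exact hK.of_isClosed_subset (hψ.cont.preimage_isClosed_of_isClosed hK.isClosed isClosed_Ici)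
        inter_subset_left
    obtain ⟨p, hp, hmin⟩ := hcl.exists_isMinOn hne continuousOn_snd
    have hp2 : -1 < p.2 := by
      by_contra hcon
      have h1 : p.2 = -1 := le_antisymm (not_lt.mp hcon) hp.1.2.2.1
      have h2 : p ∉ Dom u := by intro hd; have := hd.2.2.1; linarith
      have h3 := hψ.bdry p hp.1 h2
      rw [h1] at h3
      have h4 : ψ p = 0 := by rw [h3]; norm_num
      have h5 : d ≤ ψ p := hp.2
      linarith
    refine ⟨(p.2 - 1) / 2, by linarith, ?_⟩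
    intro q hq hq2
    by_contra hcon
    have : q ∈ CDom u ∩ ψ ⁻¹' Ici d := ⟨hq, not_lt.mp hcon⟩
    have h1 : p.2 ≤ q.2 := hmin this
    linarith
  · refine ⟨0, by norm_num, ?_⟩
    intro q hq _
    by_contra hcon
    exact hne ⟨q, hq, not_lt.mp hcon⟩

lemma mem_CDom_of {p : ℝ × ℝ} (hp : p ∈ CLow u) (h : -1 < p.2) : p ∈ CDom u :=
  ⟨hp.1.le, hp.2.1.le, h.le, hp.2.2⟩

lemma vv_ge (hε : 0 < ε) (hu : Adm u) (hψ : IsPotential ε u ψ G) {p : ℝ × ℝ}
    (hp : p ∈ CDom u) : d ≤ vv d ψ p := by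
  have := psi_le_one hε hu hψ p hp; unfold vv; linarith

lemma VV_le (hε : 0 < ε) {p : ℝ × ℝ} (h : -1 < p.2) (hx : |p.1| < 1 / 2) :
    VV ε p ≤ Real.cos (Real.pi * p.1) := by
  unfold VV
  have h1 : Real.exp (-(ε * Real.pi * (1 + p.2))) ≤ 1 := by
    apply Real.exp_le_one_iff.mpr
    have := Real.pi_pos
    have : 0 ≤ ε * Real.pi * (1 + p.2) := by
      have h3 : 0 ≤ 1 + p.2 := by linarith
      positivity
    linarith
  have h2 := cos_pos_of hx
  nlinarith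

lemma VV_nonneg {p : ℝ × ℝ} (hx : |p.1| < 1 / 2) : 0 ≤ VV ε p :=
  mul_nonneg (Real.exp_pos _).le (cos_pos_of hx).le

lemma cos_small (hd : 0 < d) {x : ℝ} (h1 : 1 / 2 - d / 4 < |x|) (h2 : |x| < 1 / 2) :
    Real.cos (Real.pi * x) < d := by
  have e : Real.cos (Real.pi * x) = Real.sin (Real.pi * (1 / 2 - |x|)) := by
    rw [← Real.cos_pi_div_two_sub]
    have : Real.pi / 2 - Real.pi * (1 / 2 - |x|) = Real.pi * |x| := by ring
    rw [this]
    rcases le_total 0 x with h | h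
    · rw [abs_of_nonneg h]
    · rw [abs_of_nonpos h, mul_neg, Real.cos_neg]
  rw [e]
  have h3 : Real.sin (Real.pi * (1 / 2 - |x|)) ≤ Real.pi * (1 / 2 - |x|) :=
    Real.sin_le (by have := Real.pi_pos; nlinarith)
  have h4 := Real.pi_lt_four
  have h5 : 0 < 1 / 2 - |x| := by linarith
  nlinarith [Real.pi_pos]

lemma RR_lt_one_side (hε : 0 < ε) (hu : Adm u) (hψ : IsPotential ε u ψ G) (hd : 0 < d)
    {p : ℝ × ℝ} (hp : p ∈ CDom u) (hz : -1 < p.2) (h1 : 1 / 2 - d / 4 < |p.1|)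
    (h2 : |p.1| < 1 / 2) : RR ε d ψ p < 1 := by
  have hv := vv_ge (d := d) hε hu hψ hp
  unfold RR
  rw [div_lt_one (by linarith)]
  have := VV_le hε hz h2
  have := cos_small hd h1 h2
  linarith

lemma RR_lt_one_bot (hε : 0 < ε) (_hd : 0 < d)
    {p : ℝ × ℝ} (hz : -1 < p.2) (hψd : ψ p < d)
    (h2 : |p.1| < 1 / 2) : RR ε d ψ p < 1 := by
  have hv : 1 < vv d ψ p := by unfold vv; linarith
  unfold RR
  rw [div_lt_one (by linarith)]
  have := VV_le hε hz h2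
  have := Real.cos_le_one (Real.pi * p.1)
  linarith

/-- vanishing near the sides and near the bottom -/
lemma vanish (hε : 0 < ε) (hu : Adm u) (hψ : IsPotential ε u ψ G) (hd : 0 < d) {z0 : ℝ}
    (hz0 : ∀ p ∈ CDom u, p.2 ≤ z0 → ψ p < d) {p : ℝ × ℝ} (hp : p ∈ CLow u)
    (h : 1 / 2 - d / 4 < |p.1| ∨ p.2 ≤ z0) : FF ε d ψ G p = 0 ∧ HH ε d ψ G p = 0 := by
  unfold FF HH
  by_cases hc : |p.1| < 1 / 2 ∧ -1 < p.2
  · rw [if_pos hc, if_pos hc]
    have hR : RR ε d ψ p < 1 := by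
      rcases h with h | h
      · exact RR_lt_one_side hε hu hψ hd (mem_CDom_of hp hc.2) hc.2 h hc.1
      · exact RR_lt_one_bot hε hd hc.2 (hz0 p (mem_CDom_of hp hc.2) h) hc.1
    rw [kk_eq_zero hR.le]
    simp
  · rw [if_neg hc, if_neg hc]
    exact ⟨rfl, rfl⟩

lemma cond_open {p : ℝ × ℝ} (h1 : |p.1| < 1 / 2) (h2 : -1 < p.2) :
    ∀ᶠ q in 𝓝 p, |q.1| < 1 / 2 ∧ -1 < q.2 := by
  have c1 : ContinuousAt (fun q : ℝ × ℝ => |q.1|) p := by fun_prop
  have c2 : ContinuousAt (fun q : ℝ × ℝ => q.2) p := by fun_prop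
  exact (c1.tendsto.eventually (gt_mem_nhds h1)).and (c2.tendsto.eventually (lt_mem_nhds h2))

lemma comps_cda (hε : 0 < ε) (hu : Adm u) (hψ : IsPotential ε u ψ G) (hd : 0 < d)
    {p : ℝ × ℝ} (hp : p ∈ Dom u) (hx : |p.1| < 1 / 2) :
    ContDiffAt ℝ 1 (fun q => kk (RR ε d ψ q)) p ∧ ContDiffAt ℝ 1 (X1 ε d ψ G) p ∧
      ContDiffAt ℝ 1 (X2 ε d ψ G) p := by
  have h1 : ContDiffAt ℝ 1 ψ p := (cda hu hψ hp).of_le (by norm_num)
  have hv : ContDiffAt ℝ 1 (vv d ψ) p := contDiffAt_const.sub h1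
  have hvne : vv d ψ p ≠ 0 := by
    have := vv_ge (d := d) hε hu hψ (Dom_subset u hp); linarith
  have hV : ContDiffAt ℝ 1 (VV ε) p := by
    unfold VV
    fun_prop
  have hR : ContDiffAt ℝ 1 (RR ε d ψ) p := hV.div hv hvne
  have hk : ContDiffAt ℝ 1 (fun q => kk (RR ε d ψ q)) p := kk_contDiff.contDiffAt.comp p hR
  have hcos : Real.cos (Real.pi * p.1) ≠ 0 := (cos_pos_of hx).ne'
  have htan : ContDiffAt ℝ 1 (fun q : ℝ × ℝ => Real.tan (Real.pi * q.1)) p := by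
    have h2 : ContDiffAt ℝ 1 Real.tan (Real.pi * p.1) := Real.contDiffAt_tan.mpr hcos
    have h3 : ContDiffAt ℝ 1 (fun q : ℝ × ℝ => Real.pi * q.1) p := by fun_prop
    exact ContDiffAt.comp (g := Real.tan) (f := fun q : ℝ × ℝ => Real.pi * q.1) p h2 h3
  have hG := G_cda hu hψ hp
  have hP : ContDiffAt ℝ 1 (PP d ψ G) p :=
    hG.fst.sub ((contDiffAt_const.mul htan).mul hv)
  have hX1 : ContDiffAt ℝ 1 (X1 ε d ψ G) p := (contDiffAt_const.mul hG.snd).mul hP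
  have hX2 : ContDiffAt ℝ 1 (X2 ε d ψ G) p :=
    ((hG.snd.pow 2).sub (contDiffAt_const.mul (hP.pow 2))).sub ((contDiffAt_const.mul hv).pow 2)
  exact ⟨hk, hX1, hX2⟩

lemma low_open (hu : Adm u) {p : ℝ × ℝ} (hp : p ∈ Low u) : Low u ∈ 𝓝 p :=
  (isOpen_Low hu.cont).mem_nhds hp

lemma Low_sub_CLow : Low u ⊆ CLow u := fun _ hp => ⟨hp.1, hp.2.1, hp.2.2.le⟩

/-- trichotomy of points -/
lemma ev_zero (hε : 0 < ε) (hu : Adm u) (hψ : IsPotential ε u ψ G) (hd : 0 < d) {z0 : ℝ}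
    (hz0 : ∀ p ∈ CDom u, p.2 ≤ z0 → ψ p < d) {p : ℝ × ℝ}
    (h : 1 / 2 - d / 4 < |p.1| ∨ p.2 < z0) :
    ∀ᶠ q in 𝓝[CLow u] p, FF ε d ψ G q = 0 ∧ HH ε d ψ G q = 0 := by
  have h1 : ∀ᶠ q in 𝓝 p, 1 / 2 - d / 4 < |q.1| ∨ q.2 ≤ z0 := by
    rcases h with h | h
    · have c1 : ContinuousAt (fun q : ℝ × ℝ => |q.1|) p := by fun_prop
      filter_upwards [c1.tendsto.eventually (lt_mem_nhds h)] with q hq
      exact Or.inl hq
    · have c2 : ContinuousAt (fun q : ℝ × ℝ => q.2) p := by fun_prop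
      filter_upwards [c2.tendsto.eventually (gt_mem_nhds h)] with q hq
      exact Or.inr (le_of_lt hq)
  filter_upwards [mem_nhdsWithin_of_mem_nhds h1, self_mem_nhdsWithin] with q hq hq2
  exact vanish hε hu hψ hd hz0 hq2 hq

lemma FH_cd (hε : 0 < ε) (hu : Adm u) (hψ : IsPotential ε u ψ G) (hd : 0 < d) {z0 : ℝ}
    (hz1 : -1 < z0) (hz0 : ∀ p ∈ CDom u, p.2 ≤ z0 → ψ p < d) :
    ContDiffOn ℝ 1 (FF ε d ψ G) (Low u) ∧ ContDiffOn ℝ 1 (HH ε d ψ G) (Low u) := by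
  have key : ∀ p ∈ Low u, ContDiffAt ℝ 1 (FF ε d ψ G) p ∧ ContDiffAt ℝ 1 (HH ε d ψ G) p := by
    intro p hp
    by_cases h : 1 / 2 - d / 4 < |p.1| ∨ p.2 < z0
    · have h1 := ev_zero hε hu hψ hd hz0 h
      have h2 : 𝓝[CLow u] p = 𝓝 p :=
        nhdsWithin_eq_nhds.mpr (mem_of_superset (low_open hu hp) Low_sub_CLow)
      rw [h2] at h1
      have e1 : FF ε d ψ G =ᶠ[𝓝 p] fun _ => 0 := h1.mono fun q hq => hq.1
      have e2 : HH ε d ψ G =ᶠ[𝓝 p] fun _ => 0 := h1.mono fun q hq => hq.2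
      exact ⟨contDiffAt_const.congr_of_eventuallyEq e1, contDiffAt_const.congr_of_eventuallyEq e2⟩
    · push Not at h
      have hx : |p.1| < 1 / 2 := by linarith [h.1]
      have hz : -1 < p.2 := by linarith [h.2]
      have hD : p ∈ Dom u := ⟨hp.1, hp.2.1, hz, hp.2.2⟩
      obtain ⟨c1, c2, c3⟩ := comps_cda hε hu hψ hd hD hx
      have ev := cond_open hx hz
      have e1 : FF ε d ψ G =ᶠ[𝓝 p] fun q => kk (RR ε d ψ q) * X1 ε d ψ G q := by
        filter_upwards [ev] with q hq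
        unfold FF; rw [if_pos hq]
      have e2 : HH ε d ψ G =ᶠ[𝓝 p] fun q => kk (RR ε d ψ q) * X2 ε d ψ G q := by
        filter_upwards [ev] with q hq
        unfold HH; rw [if_pos hq]
      exact ⟨(c1.mul c2).congr_of_eventuallyEq e1, (c1.mul c3).congr_of_eventuallyEq e2⟩
  exact ⟨fun p hp => (key p hp).1.contDiffWithinAt, fun p hp => (key p hp).2.contDiffWithinAt⟩

lemma FH_cont (hε : 0 < ε) (hu : Adm u) (hψ : IsPotential ε u ψ G) (hd : 0 < d) {z0 : ℝ}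
    (hz1 : -1 < z0) (hz0 : ∀ p ∈ CDom u, p.2 ≤ z0 → ψ p < d) :
    ContinuousOn (FF ε d ψ G) (CLow u) ∧ ContinuousOn (HH ε d ψ G) (CLow u) := by
  have key : ∀ p ∈ CLow u, ContinuousWithinAt (FF ε d ψ G) (CLow u) p ∧
      ContinuousWithinAt (HH ε d ψ G) (CLow u) p := by
    intro p hp
    by_cases h : 1 / 2 - d / 4 < |p.1| ∨ p.2 < z0
    · have h1 := ev_zero (G := G) hε hu hψ hd hz0 h
      have e1 : FF ε d ψ G =ᶠ[𝓝[CLow u] p] fun _ => 0 := h1.mono fun q hq => hq.1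
      have e2 : HH ε d ψ G =ᶠ[𝓝[CLow u] p] fun _ => 0 := h1.mono fun q hq => hq.2
      have hp' : p ∈ CLow u := hp
      exact ⟨continuousWithinAt_const.congr_of_eventuallyEq_of_mem e1 hp',
        continuousWithinAt_const.congr_of_eventuallyEq_of_mem e2 hp'⟩
    · push Not at h
      have hx : |p.1| < 1 / 2 := by linarith [h.1]
      have hz : -1 < p.2 := by linarith [h.2]
      have hT : p ∈ TDom u := ⟨hp.1, hp.2.1, hz, hp.2.2⟩
      have ev : ∀ᶠ q in 𝓝[CLow u] p, |q.1| < 1 / 2 ∧ -1 < q.2 :=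
        mem_nhdsWithin_of_mem_nhds (cond_open hx hz)
      have hTn : TDom u ∈ 𝓝[CLow u] p := by
        filter_upwards [ev, self_mem_nhdsWithin] with q hq hq2
        exact ⟨hq2.1, hq2.2.1, hq.2, hq2.2.2⟩
      have hCn : CDom u ∈ 𝓝[CLow u] p := by
        filter_upwards [hTn] with q hq
        exact ⟨hq.1.le, hq.2.1.le, hq.2.2.1.le, hq.2.2.2⟩
      have cG : ContinuousWithinAt G (CLow u) p := (hψ.gcont p hT).mono_of_mem_nhdsWithin hTn
      have cψ : ContinuousWithinAt ψ (CLow u) p :=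
        (hψ.cont p (mem_CDom_of hp hz)).mono_of_mem_nhdsWithin hCn
      have hv : ContinuousWithinAt (vv d ψ) (CLow u) p := continuousWithinAt_const.sub cψ
      have hvne : vv d ψ p ≠ 0 := by
        have := vv_ge (d := d) hε hu hψ (mem_CDom_of hp hz); linarith
      have hV : ContinuousWithinAt (VV ε) (CLow u) p := by
        have : ContinuousAt (VV ε) p := by unfold VV; fun_prop
        exact this.continuousWithinAt
      have hR : ContinuousWithinAt (RR ε d ψ) (CLow u) p := hV.div hv hvne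
      have hk : ContinuousWithinAt (fun q => kk (RR ε d ψ q)) (CLow u) p :=
        (kk_contDiff.continuous.continuousAt).comp_continuousWithinAt hR
      have hcos : Real.cos (Real.pi * p.1) ≠ 0 := (cos_pos_of hx).ne'
      have htan : ContinuousWithinAt (fun q : ℝ × ℝ => Real.tan (Real.pi * q.1)) (CLow u) p := by
        have h2 : ContinuousAt Real.tan (Real.pi * p.1) := Real.continuousAt_tan.mpr hcos
        have h3 : ContinuousAt (fun q : ℝ × ℝ => Real.pi * q.1) p := by fun_prop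
        exact (ContinuousAt.comp (g := Real.tan) (f := fun q : ℝ × ℝ => Real.pi * q.1)
          (x := p) h2 h3).continuousWithinAt
      have hP : ContinuousWithinAt (PP d ψ G) (CLow u) p :=
        cG.fst.sub ((continuousWithinAt_const.mul htan).mul hv)
      have hX1 : ContinuousWithinAt (X1 ε d ψ G) (CLow u) p :=
        (continuousWithinAt_const.mul cG.snd).mul hP
      have hX2 : ContinuousWithinAt (X2 ε d ψ G) (CLow u) p :=
        ((cG.snd.pow 2).sub (continuousWithinAt_const.mul (hP.pow 2))).sub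
          ((continuousWithinAt_const.mul hv).pow 2)
      have e1 : FF ε d ψ G =ᶠ[𝓝[CLow u] p] fun q => kk (RR ε d ψ q) * X1 ε d ψ G q := by
        filter_upwards [ev] with q hq
        unfold FF; rw [if_pos hq]
      have e2 : HH ε d ψ G =ᶠ[𝓝[CLow u] p] fun q => kk (RR ε d ψ q) * X2 ε d ψ G q := by
        filter_upwards [ev] with q hq
        unfold HH; rw [if_pos hq]
      exact ⟨(hk.mul hX1).congr_of_eventuallyEq_of_mem e1 hp,
        (hk.mul hX2).congr_of_eventuallyEq_of_mem e2 hp⟩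
  exact ⟨fun p hp => (key p hp).1, fun p hp => (key p hp).2⟩

lemma div_nonneg' (hε : 0 < ε) (hu : Adm u) (hψ : IsPotential ε u ψ G) (hd : 0 < d) {z0 : ℝ}
    (hz1 : -1 < z0) (hz0 : ∀ p ∈ CDom u, p.2 ≤ z0 → ψ p < d) :
    ∀ p ∈ Low u, 0 ≤ fderiv ℝ (FF ε d ψ G) p (1, 0) + fderiv ℝ (HH ε d ψ G) p (0, 1) := by
  intro p hp
  obtain ⟨hFd, hHd⟩ := FH_cd hε hu hψ hd hz1 hz0
  have dF : HasFDerivAt (FF ε d ψ G) (fderiv ℝ (FF ε d ψ G) p) p :=
    (((hFd p hp).contDiffAt (low_open hu hp)).differentiableAt (by simp)).hasFDerivAt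
  have dH : HasFDerivAt (HH ε d ψ G) (fderiv ℝ (HH ε d ψ G) p) p :=
    (((hHd p hp).contDiffAt (low_open hu hp)).differentiableAt (by simp)).hasFDerivAt
  by_cases h : 1 / 2 - d / 4 < |p.1| ∨ p.2 < z0
  · have h1 := ev_zero (G := G) hε hu hψ hd hz0 h
    have h2 : 𝓝[CLow u] p = 𝓝 p :=
      nhdsWithin_eq_nhds.mpr (mem_of_superset (low_open hu hp) Low_sub_CLow)
    rw [h2] at h1
    have e1 : FF ε d ψ G =ᶠ[𝓝 p] fun _ => 0 := h1.mono fun q hq => hq.1
    have e2 : HH ε d ψ G =ᶠ[𝓝 p] fun _ => 0 := h1.mono fun q hq => hq.2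
    rw [e1.fderiv_eq, e2.fderiv_eq]
    simp
  · push Not at h
    have hx : |p.1| < 1 / 2 := by linarith [h.1]
    have hz : -1 < p.2 := by linarith [h.2]
    have hD : p ∈ Dom u := ⟨hp.1, hp.2.1, hz, hp.2.2⟩
    obtain ⟨Px, Pz, Qz, h1, h2, h3, h4, h5⟩ := second hu hψ hD
    have ax := alg_x hu hψ hd hε hD hx h1 h3
    have az := alg_z hu hψ hd hε hD h2 h4
    have ev := cond_open hx hz
    have e1 : FF ε d ψ G =ᶠ[𝓝 p] fun q => kk (RR ε d ψ q) * X1 ε d ψ G q := by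
      filter_upwards [ev] with q hq
      unfold FF; rw [if_pos hq]
    have e2 : HH ε d ψ G =ᶠ[𝓝 p] fun q => kk (RR ε d ψ q) * X2 ε d ψ G q := by
      filter_upwards [ev] with q hq
      unfold HH; rw [if_pos hq]
    have s1 := slice_deriv_fst (dF.congr_of_eventuallyEq e1.symm)
    have s2 := slice_deriv_snd (dH.congr_of_eventuallyEq e2.symm)
    rw [s1.unique ax, s2.unique az]
    have hv : 0 < vv d ψ p := by
      have := vv_ge (d := d) hε hu hψ (Dom_subset u hD); linarith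
    have hQ : 0 ≤ (G p).2 := by
      rw [hψ.grad p hD]; exact dz_nonneg hε hu hψ hD
    have hR : 0 ≤ RR ε d ψ p := div_nonneg (VV_nonneg hx) hv.le
    have hm : 0 ≤ max (RR ε d ψ p - 1) 0 := le_max_right _ _
    have hpi := Real.pi_pos
    have hPz : Qz = -(ε ^ 2 * Px) := by linarith
    set m := max (RR ε d ψ p - 1) 0
    set R := RR ε d ψ p
    set v := vv d ψ p with hvdef
    set T := Real.tan (Real.pi * p.1) with hT
    set P := (G p).1 with hPdef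
    set Q := (G p).2 with hQdef
    have hPP : PP d ψ G p = P - Real.pi * T * v := rfl
    have hX1 : X1 ε d ψ G p = 2 * ε ^ 2 * Q * (P - Real.pi * T * v) := rfl
    have hX2 : X2 ε d ψ G p = Q ^ 2 - ε ^ 2 * (P - Real.pi * T * v) ^ 2 - (ε * Real.pi * v) ^ 2 := rfl
    rw [hX1, hX2, hPP, hPz]
    have key : 2 * m * (R * (P - Real.pi * T * v) / v) * (2 * ε ^ 2 * Q * (P - Real.pi * T * v)) +
        kk R * (2 * ε ^ 2 * (Pz * (P - Real.pi * T * v) + Q *
          (Px - (Real.pi * (Real.pi * (1 + T ^ 2)) * v + Real.pi * T * -P)))) +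
        (2 * m * (R * (Q - ε * Real.pi * v) / v) *
            (Q ^ 2 - ε ^ 2 * (P - Real.pi * T * v) ^ 2 - (ε * Real.pi * v) ^ 2) +
          kk R * (2 * Q * -(ε ^ 2 * Px) -
            ε ^ 2 * (2 * (P - Real.pi * T * v) * (Pz + Real.pi * T * Q)) +
            2 * (ε * Real.pi) ^ 2 * v * Q)) =
        2 * m * R / v * ((Q + ε * Real.pi * v) *
          ((Q - ε * Real.pi * v) ^ 2 + ε ^ 2 * (P - Real.pi * T * v) ^ 2)) := by
      field_simp
      ring
    rw [key]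
    have hω : 0 < ε * Real.pi * v := by positivity
    positivity

end Pool.Agent.H29.MEMS
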