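import Mathlib

/-!
Weak maximum principle for `ε² ∂ₓₓ + ∂_zz` in a region below a graph.
-/

open Set Topology Filter

namespace Pool.Agent.H29.MEMS

/-- open region between the line `z = -1` and the graph of `v` over `(-1,1)` -/
def Dom (v : ℝ → ℝ) : Set (ℝ × ℝ) := {p | -1 < p.1 ∧ p.1 < 1 ∧ -1 < p.2 ∧ p.2 < v p.1}

/-- its closed version -/
def CDom (v : ℝ → ℝ) : Set (ℝ × ℝ) := {p | -1 ≤ p.1 ∧ p.1 ≤ 1 ∧ -1 ≤ p.2 ∧ p.2 ≤ v p.1}

lemma Dom_subset (v : ℝ → ℝ) : Dom v ⊆ CDom v := by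
  intro p hp
  exact ⟨hp.1.le, hp.2.1.le, hp.2.2.1.le, hp.2.2.2.le⟩

lemma isOpen_Dom {v : ℝ → ℝ} (hv : ContinuousOn v (Icc (-1) 1)) : IsOpen (Dom v) := by
  have h1 : IsOpen {p : ℝ × ℝ | p.1 ∈ Ioo (-1:ℝ) 1} := isOpen_Ioo.preimage continuous_fst
  have h2 : ContinuousOn (fun p : ℝ × ℝ => v p.1 - p.2) {p : ℝ × ℝ | p.1 ∈ Ioo (-1:ℝ) 1} := by
    refine ContinuousOn.sub ?_ continuousOn_snd
    exact hv.comp continuousOn_fst (fun p hp => ⟨hp.1.le, hp.2.le⟩)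
  have h3 := h2.isOpen_inter_preimage h1 (isOpen_Ioi (a := (0:ℝ)))
  have h4 : IsOpen {p : ℝ × ℝ | -1 < p.2} := isOpen_Ioi.preimage continuous_snd
  have : Dom v = ({p : ℝ × ℝ | p.1 ∈ Ioo (-1:ℝ) 1} ∩ (fun p : ℝ × ℝ => v p.1 - p.2) ⁻¹' Ioi 0) ∩
      {p : ℝ × ℝ | -1 < p.2} := by
    ext p
    simp only [Dom, mem_ofPred_eq, mem_inter_iff, mem_preimage, mem_Ioi, mem_Ioo, sub_pos]
    tauto
  rw [this]
  exact h3.inter h4

lemma isCompact_CDom {v : ℝ → ℝ} (hv : ContinuousOn v (Icc (-1) 1)) : IsCompact (CDom v) := by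
  obtain ⟨C, hC⟩ := isCompact_Icc.bddAbove_image hv
  have hsub : CDom v ⊆ Icc (-1:ℝ) 1 ×ˢ Icc (-1:ℝ) C := by
    rintro ⟨x, z⟩ ⟨h1, h2, h3, h4⟩
    refine ⟨⟨h1, h2⟩, h3, h4.trans (hC ⟨x, ⟨h1, h2⟩, rfl⟩)⟩
  refine IsCompact.of_isClosed_subset (isCompact_Icc.prod isCompact_Icc) ?_ hsub
  have h0 : IsClosed (Icc (-1:ℝ) 1 ×ˢ (univ : Set ℝ)) := isClosed_Icc.prod isClosed_univ
  have h2 : ContinuousOn (fun p : ℝ × ℝ => v p.1 - p.2) (Icc (-1:ℝ) 1 ×ˢ (univ : Set ℝ)) := by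
    refine ContinuousOn.sub ?_ continuousOn_snd
    exact hv.comp continuousOn_fst (fun p hp => hp.1)
  have h3 := h2.preimage_isClosed_of_isClosed h0 (isClosed_Ici (a := (0:ℝ)))
  have h4 : IsClosed {p : ℝ × ℝ | -1 ≤ p.2} := isClosed_Ici.preimage continuous_snd
  have : CDom v = ((Icc (-1:ℝ) 1 ×ˢ (univ : Set ℝ)) ∩ (fun p : ℝ × ℝ => v p.1 - p.2) ⁻¹' Ici 0) ∩
      {p : ℝ × ℝ | -1 ≤ p.2} := by
    ext p
    simp only [CDom, mem_ofPred_eq, mem_inter_iff, mem_preimage, mem_Ici, mem_Icc, sub_nonneg,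
      mem_prod, mem_univ, and_true]
    tauto
  rw [this]
  exact h3.inter h4

/-- partial derivatives -/
noncomputable def dx (ψ : ℝ × ℝ → ℝ) (p : ℝ × ℝ) : ℝ := deriv (fun x => ψ (x, p.2)) p.1

noncomputable def dz (ψ : ℝ × ℝ → ℝ) (p : ℝ × ℝ) : ℝ := deriv (fun z => ψ (p.1, z)) p.2

/-- second derivative test at a local maximum -/
lemma deriv2_nonpos_of_isLocalMax {f : ℝ → ℝ} {a : ℝ} (h : IsLocalMax f a)
    (hc : ContinuousAt f a) : deriv (deriv f) a ≤ 0 := by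
  by_contra hpos
  push Not at hpos
  have hd : deriv f a = 0 := h.deriv_eq_zero
  have hmin := isLocalMin_of_deriv_deriv_pos hpos hd hc
  have hconst : f =ᶠ[𝓝 a] fun _ => f a := by
    filter_upwards [h, hmin] with x h1 h2
    exact le_antisymm h1 h2
  have h1 : deriv f =ᶠ[𝓝 a] fun _ => 0 := by
    have := hconst.deriv
    simpa using this
  have h2 : deriv (deriv f) a = 0 := by
    rw [h1.deriv_eq]; simp
  linarith

lemma comp_fst_mem {v : ℝ → ℝ} (hv : ContinuousOn v (Icc (-1) 1)) {p : ℝ × ℝ} (hp : p ∈ Dom v) :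
    ∀ᶠ x in 𝓝 p.1, (x, p.2) ∈ Dom v := by
  have : ContinuousAt (fun x : ℝ => (x, p.2)) p.1 := by fun_prop
  exact this.eventually ((isOpen_Dom hv).mem_nhds hp)

lemma comp_snd_mem {v : ℝ → ℝ} (hv : ContinuousOn v (Icc (-1) 1)) {p : ℝ × ℝ} (hp : p ∈ Dom v) :
    ∀ᶠ z in 𝓝 p.2, (p.1, z) ∈ Dom v := by
  have : ContinuousAt (fun z : ℝ => (p.1, z)) p.2 := by fun_prop
  exact this.eventually ((isOpen_Dom hv).mem_nhds hp)

/-- slices are twice differentiable -/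
lemma slice_fst {v : ℝ → ℝ} (hv : ContinuousOn v (Icc (-1) 1)) {φ : ℝ × ℝ → ℝ}
    (hφ : ContDiffOn ℝ 2 φ (Dom v)) {p : ℝ × ℝ} (hp : p ∈ Dom v) :
    ContDiffAt ℝ 2 (fun x => φ (x, p.2)) p.1 := by
  have h1 : ContDiffAt ℝ 2 φ p := (hφ p hp).contDiffAt ((isOpen_Dom hv).mem_nhds hp)
  have h2 : ContDiffAt ℝ 2 (fun x : ℝ => (x, p.2)) p.1 := by fun_prop
  exact ContDiffAt.comp p.1 (by simpa using h1) h2

lemma slice_snd {v : ℝ → ℝ} (hv : ContinuousOn v (Icc (-1) 1)) {φ : ℝ × ℝ → ℝ}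
    (hφ : ContDiffOn ℝ 2 φ (Dom v)) {p : ℝ × ℝ} (hp : p ∈ Dom v) :
    ContDiffAt ℝ 2 (fun z => φ (p.1, z)) p.2 := by
  have h1 : ContDiffAt ℝ 2 φ p := (hφ p hp).contDiffAt ((isOpen_Dom hv).mem_nhds hp)
  have h2 : ContDiffAt ℝ 2 (fun z : ℝ => (p.1, z)) p.2 := by fun_prop
  exact ContDiffAt.comp p.2 (by simpa using h1) h2

/-- `ε² φ_xx + φ_zz` -/
noncomputable def Lop (ε : ℝ) (φ : ℝ × ℝ → ℝ) (p : ℝ × ℝ) : ℝ :=
  ε ^ 2 * deriv (deriv (fun x => φ (x, p.2))) p.1 + deriv (deriv (fun z => φ (p.1, z))) p.2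

lemma deriv2_add_quad {f : ℝ → ℝ} {a η : ℝ} (hf : ContDiffAt ℝ 2 f a) :
    deriv (deriv (fun x => f x + η * (x ^ 2 - 1))) a = deriv (deriv f) a + 2 * η := by
  have h1 : ∀ᶠ x in 𝓝 a, DifferentiableAt ℝ f x := by
    have := hf.eventually (by simp)
    filter_upwards [this] with x hx
    exact hx.differentiableAt (by simp)
  have h2 : deriv (fun x => f x + η * (x ^ 2 - 1)) =ᶠ[𝓝 a] fun x => deriv f x + η * (2 * x) := by
    filter_upwards [h1] with x hx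
    have h3 : HasDerivAt (fun x : ℝ => η * (x ^ 2 - 1)) (η * (2 * x)) x := by
      have := ((hasDerivAt_pow 2 x).sub_const 1).const_mul η
      simpa using this
    exact (hx.hasDerivAt.add h3).deriv
  rw [h2.deriv_eq]
  have h4 : DifferentiableAt ℝ (deriv f) a := by
    have h6 : ContDiffAt ℝ 1 (fderiv ℝ f) a := hf.fderiv_right (by norm_num)
    have h7 : ContDiffAt ℝ 1 (fun x => fderiv ℝ f x 1) a := h6.clm_apply contDiffAt_const
    exact h7.differentiableAt (by simp)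
  have h5 : HasDerivAt (fun x : ℝ => η * (2 * x)) (2 * η) a := by
    have := ((hasDerivAt_id a).const_mul 2).const_mul η
    simpa [mul_comm] using this
  exact (h4.hasDerivAt.add h5).deriv


lemma deriv2_const_zero (c a : ℝ) : deriv (deriv (fun _ : ℝ => c)) a = 0 := by
  simp

/-- weak maximum principle -/
theorem maxPrinciple {ε : ℝ} (hε : 0 < ε) {v : ℝ → ℝ} (hv : ContinuousOn v (Icc (-1) 1))
    {φ : ℝ × ℝ → ℝ} (hφc : ContinuousOn φ (CDom v)) (hφ : ContDiffOn ℝ 2 φ (Dom v))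
    (hL : ∀ p ∈ Dom v, 0 ≤ Lop ε φ p) (hb : ∀ p ∈ CDom v, p ∉ Dom v → φ p ≤ 0) :
    ∀ p ∈ CDom v, φ p ≤ 0 := by
  have key : ∀ η : ℝ, 0 < η → ∀ p ∈ CDom v, φ p + η * (p.1 ^ 2 - 1) ≤ 0 := by
    intro η hη
    by_contra hcon
    push Not at hcon
    obtain ⟨p0, hp0, hpos⟩ := hcon
    have hc : ContinuousOn (fun p : ℝ × ℝ => φ p + η * (p.1 ^ 2 - 1)) (CDom v) :=
      hφc.add (by fun_prop)
    obtain ⟨p, hp, hmax⟩ := (isCompact_CDom hv).exists_isMaxOn ⟨p0, hp0⟩ hc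
    have hpv : 0 < φ p + η * (p.1 ^ 2 - 1) := lt_of_lt_of_le hpos (hmax hp0)
    have hsq : p.1 ^ 2 - 1 ≤ 0 := by
      have := hp.1; have := hp.2.1; nlinarith
    have hpD : p ∈ Dom v := by
      by_contra hnot
      have h1 := hb p hp hnot
      have h2 : η * (p.1 ^ 2 - 1) ≤ 0 := mul_nonpos_of_nonneg_of_nonpos hη.le hsq
      linarith
    -- local maxima along the slices
    have hf1 : IsLocalMax (fun x => φ (x, p.2) + η * (x ^ 2 - 1)) p.1 := by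
      filter_upwards [comp_fst_mem hv hpD] with x hx
      exact hmax (Dom_subset v hx)
    have hf2 : IsLocalMax (fun z => φ (p.1, z) + η * (p.1 ^ 2 - 1)) p.2 := by
      filter_upwards [comp_snd_mem hv hpD] with z hz
      exact hmax (Dom_subset v hz)
    have hs1 := slice_fst hv hφ hpD
    have hs2 := slice_snd hv hφ hpD
    have e1 := deriv2_nonpos_of_isLocalMax hf1 (hs1.continuousAt.add (by fun_prop))
    have e2 := deriv2_nonpos_of_isLocalMax hf2 (hs2.continuousAt.add (by fun_prop))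
    rw [deriv2_add_quad hs1] at e1
    have e3 : deriv (deriv (fun z => φ (p.1, z) + η * (p.1 ^ 2 - 1))) p.2
        = deriv (deriv (fun z => φ (p.1, z))) p.2 := by
      congr 1
      ext z
      simp
    rw [e3] at e2
    have h3 := hL p hpD
    unfold Lop at h3
    have h4 : ε ^ 2 * (deriv (deriv (fun x => φ (x, p.2))) p.1 + 2 * η) ≤ 0 :=
      mul_nonpos_of_nonneg_of_nonpos (by positivity) e1
    have h5 : 0 < ε ^ 2 * (2 * η) := by positivity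
    nlinarith
  intro p hp
  by_contra hcon
  push Not at hcon
  have h1 := key (φ p / 2) (by linarith) p hp
  nlinarith [sq_nonneg p.1, mul_nonneg hcon.le (sq_nonneg p.1)]

end Pool.Agent.H29.MEMS
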