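import Pool.Agent.H29.MEMS.MaxP

open Set Topology Filter

namespace Pool.Agent.H29.MEMS

/-- the open region together with the open top edge -/
def TDom (v : ℝ → ℝ) : Set (ℝ × ℝ) := {p | -1 < p.1 ∧ p.1 < 1 ∧ -1 < p.2 ∧ p.2 ≤ v p.1}

/-- `ψ` is the potential of the deflection `u`, `G` its gradient, extended continuously to the
top edge. -/
structure IsPotential (ε : ℝ) (u : ℝ → ℝ) (ψ : ℝ × ℝ → ℝ) (G : ℝ × ℝ → ℝ × ℝ) : Prop where
  cont : ContinuousOn ψ (CDom u)
  smooth : ContDiffOn ℝ 2 ψ (Dom u)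
  pde : ∀ p ∈ Dom u, Lop ε ψ p = 0
  bdry : ∀ p ∈ CDom u, p ∉ Dom u → ψ p = (1 + p.2) / (1 + u p.1)
  grad : ∀ p ∈ Dom u, G p = (dx ψ p, dz ψ p)
  gcont : ContinuousOn G (TDom u)

/-- admissible deflections -/
structure Adm (u : ℝ → ℝ) : Prop where
  c1 : ContDiffOn ℝ 1 u (Icc (-1) 1)
  gt : ∀ x ∈ Icc (-1:ℝ) 1, -1 < u x
  left : u (-1) = 0
  right : u 1 = 0

variable {ε : ℝ} {u : ℝ → ℝ} {ψ : ℝ × ℝ → ℝ} {G : ℝ × ℝ → ℝ × ℝ}

lemma Lop_neg (ε : ℝ) (φ : ℝ × ℝ → ℝ) (p : ℝ × ℝ) : Lop ε (fun q => -φ q) p = -Lop ε φ p := by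
  unfold Lop
  have h1 : deriv (fun x => -φ (x, p.2)) = fun x => -deriv (fun x => φ (x, p.2)) x := by
    ext x; exact deriv.fun_neg
  have h2 : deriv (fun z => -φ (p.1, z)) = fun z => -deriv (fun z => φ (p.1, z)) z := by
    ext x; exact deriv.fun_neg
  rw [h1, h2, deriv.fun_neg, deriv.fun_neg]
  ring

lemma Lop_sub_const (ε c : ℝ) (φ : ℝ × ℝ → ℝ) (p : ℝ × ℝ) :
    Lop ε (fun q => φ q - c) p = Lop ε φ p := by
  unfold Lop
  have h1 : deriv (fun x => φ (x, p.2) - c) = deriv (fun x => φ (x, p.2)) := by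
    ext x; simp
  have h2 : deriv (fun z => φ (p.1, z) - c) = deriv (fun z => φ (p.1, z)) := by
    ext x; simp
  rw [h1, h2]

lemma Adm.cont (hu : Adm u) : ContinuousOn u (Icc (-1) 1) := hu.c1.continuousOn

theorem psi_nonneg (hε : 0 < ε) (hu : Adm u) (hψ : IsPotential ε u ψ G) :
    ∀ p ∈ CDom u, 0 ≤ ψ p := by
  have := maxPrinciple hε hu.cont (φ := fun q => -ψ q) hψ.cont.neg hψ.smooth.neg
    (fun p hp => by rw [Lop_neg, hψ.pde p hp]; simp)
    (fun p hp hn => by
      rw [hψ.bdry p hp hn]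
      have h1 := hu.gt p.1 ⟨hp.1, hp.2.1⟩
      have h2 := hp.2.2.1
      have : 0 ≤ (1 + p.2) / (1 + u p.1) := div_nonneg (by linarith) (by linarith)
      linarith)
  intro p hp
  have := this p hp
  simpa using this

theorem psi_le_one (hε : 0 < ε) (hu : Adm u) (hψ : IsPotential ε u ψ G) :
    ∀ p ∈ CDom u, ψ p ≤ 1 := by
  have := maxPrinciple hε hu.cont (φ := fun q => ψ q - 1) (hψ.cont.sub continuousOn_const)
    (hψ.smooth.sub contDiffOn_const)
    (fun p hp => by rw [Lop_sub_const, hψ.pde p hp])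
    (fun p hp hn => by
      rw [hψ.bdry p hp hn]
      have h1 := hu.gt p.1 ⟨hp.1, hp.2.1⟩
      have h2 := hp.2.2.2
      have : (1 + p.2) / (1 + u p.1) ≤ 1 := by
        rw [div_le_one (by linarith)]; linarith
      linarith)
  intro p hp
  have := this p hp
  linarith

lemma Lop_sub_shift (hu : Adm u) (hψ : IsPotential ε u ψ G) {h : ℝ} (hh : 0 < h) {p : ℝ × ℝ}
    (hp : p ∈ Dom (fun x => u x - h)) :
    Lop ε (fun q => ψ q - ψ (q.1, q.2 + h)) p = 0 := by
  have hp1 : p ∈ Dom u := ⟨hp.1, hp.2.1, hp.2.2.1, by have := hp.2.2.2; simp only at this; linarith⟩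
  have hp2 : (p.1, p.2 + h) ∈ Dom u :=
    ⟨hp.1, hp.2.1, by have := hp.2.2.1; simp only; linarith,
      by have := hp.2.2.2; simp only at this ⊢; linarith⟩
  have e1 := hψ.pde p hp1
  have e2 := hψ.pde _ hp2
  unfold Lop at *
  simp only at e2 ⊢
  -- x-slices
  have sx1 := slice_fst hu.cont hψ.smooth hp1
  have sx2 := slice_fst hu.cont hψ.smooth hp2
  have sz1 := slice_snd hu.cont hψ.smooth hp1
  have sz2 := slice_snd hu.cont hψ.smooth hp2
  simp only at sx2 sz2
  have gen : ∀ (f g : ℝ → ℝ) (a : ℝ), ContDiffAt ℝ 2 f a → ContDiffAt ℝ 2 g a →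
      deriv (deriv (fun x => f x - g x)) a = deriv (deriv f) a - deriv (deriv g) a := by
    intro f g a hf hg
    have h1 : ∀ᶠ x in 𝓝 a, DifferentiableAt ℝ f x ∧ DifferentiableAt ℝ g x := by
      filter_upwards [hf.eventually (by simp), hg.eventually (by simp)] with x hx hx'
      exact ⟨hx.differentiableAt (by simp), hx'.differentiableAt (by simp)⟩
    have h2 : deriv (fun x => f x - g x) =ᶠ[𝓝 a] fun x => deriv f x - deriv g x := by
      filter_upwards [h1] with x hx
      exact deriv_fun_sub hx.1 hx.2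
    rw [h2.deriv_eq]
    have h3 : ∀ k : ℝ → ℝ, ContDiffAt ℝ 2 k a → DifferentiableAt ℝ (deriv k) a := by
      intro k hk
      have h6 : ContDiffAt ℝ 1 (fderiv ℝ k) a := hk.fderiv_right (by norm_num)
      have h7 : ContDiffAt ℝ 1 (fun x => fderiv ℝ k x 1) a := h6.clm_apply contDiffAt_const
      exact h7.differentiableAt (by simp)
    exact deriv_fun_sub (h3 f hf) (h3 g hg)
  rw [gen _ _ _ sx1 sx2]
  have sz2' : ContDiffAt ℝ 2 (fun z => ψ (p.1, z + h)) p.2 := by
    have : ContDiffAt ℝ 2 (fun z : ℝ => z + h) p.2 := by fun_prop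
    exact ContDiffAt.comp p.2 (g := fun z => ψ (p.1, z)) (f := fun z => z + h) sz2 this
  rw [gen _ _ _ sz1 sz2']
  have e3 : deriv (deriv (fun z => ψ (p.1, z + h))) p.2
      = deriv (deriv (fun z => ψ (p.1, z))) (p.2 + h) := by
    have h1 : deriv (fun z => ψ (p.1, z + h)) = fun z => deriv (fun z => ψ (p.1, z)) (z + h) := by
      ext z
      exact deriv_comp_add_const (fun z => ψ (p.1, z)) h z
    rw [h1]
    exact deriv_comp_add_const (deriv (fun z => ψ (p.1, z))) h p.2
  rw [e3]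
  linarith

theorem psi_shift (hε : 0 < ε) (hu : Adm u) (hψ : IsPotential ε u ψ G) {h : ℝ} (hh : 0 < h) :
    ∀ p ∈ CDom (fun x => u x - h), ψ p ≤ ψ (p.1, p.2 + h) := by
  have hv : ContinuousOn (fun x => u x - h) (Icc (-1) 1) := hu.cont.sub continuousOn_const
  have m1 : ∀ p ∈ CDom (fun x => u x - h), p ∈ CDom u := by
    intro p hp
    exact ⟨hp.1, hp.2.1, hp.2.2.1, by have := hp.2.2.2; simp only at this; linarith⟩
  have m2 : ∀ p ∈ CDom (fun x => u x - h), (p.1, p.2 + h) ∈ CDom u := by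
    intro p hp
    exact ⟨hp.1, hp.2.1, by have := hp.2.2.1; simp only; linarith,
      by have := hp.2.2.2; simp only at this ⊢; linarith⟩
  have n1 : ∀ p ∈ Dom (fun x => u x - h), p ∈ Dom u := by
    intro p hp
    exact ⟨hp.1, hp.2.1, hp.2.2.1, by have := hp.2.2.2; simp only at this; linarith⟩
  have n2 : ∀ p ∈ Dom (fun x => u x - h), (p.1, p.2 + h) ∈ Dom u := by
    intro p hp
    exact ⟨hp.1, hp.2.1, by have := hp.2.2.1; simp only; linarith,
      by have := hp.2.2.2; simp only at this ⊢; linarith⟩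
  have hc : ContinuousOn (fun q : ℝ × ℝ => ψ q - ψ (q.1, q.2 + h)) (CDom (fun x => u x - h)) := by
    refine (hψ.cont.mono m1).sub ?_
    exact hψ.cont.comp (by fun_prop) m2
  have hs : ContDiffOn ℝ 2 (fun q : ℝ × ℝ => ψ q - ψ (q.1, q.2 + h)) (Dom (fun x => u x - h)) := by
    refine (hψ.smooth.mono n1).sub ?_
    exact hψ.smooth.comp (by fun_prop) n2
  have := maxPrinciple hε hv hc hs (fun p hp => by rw [Lop_sub_shift hu hψ hh hp])
    (fun p hp hn => by
      have hnot : p.1 = -1 ∨ p.1 = 1 ∨ p.2 = -1 ∨ p.2 = u p.1 - h := by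
        by_contra hcon
        push Not at hcon
        apply hn
        exact ⟨lt_of_le_of_ne hp.1 (Ne.symm hcon.1), lt_of_le_of_ne hp.2.1 hcon.2.1,
          lt_of_le_of_ne hp.2.2.1 (Ne.symm hcon.2.2.1), lt_of_le_of_ne hp.2.2.2 hcon.2.2.2⟩
      have b1 := m1 p hp
      have b2 := m2 p hp
      have side : (p.1 = -1 ∨ p.1 = 1) → ψ p - ψ (p.1, p.2 + h) ≤ 0 := by
        intro hs
        have hu0 : u p.1 = 0 := by
          rcases hs with hs | hs <;> rw [hs]
          · exact hu.left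
          · exact hu.right
        have c1 : p ∉ Dom u := by
          intro hd
          rcases hs with hs | hs
          · have := hd.1; linarith
          · have := hd.2.1; linarith
        have c2 : (p.1, p.2 + h) ∉ Dom u := by
          intro hd
          rcases hs with hs | hs
          · have := hd.1; simp only at this; linarith
          · have := hd.2.1; simp only at this; linarith
        rw [hψ.bdry p b1 c1, hψ.bdry _ b2 c2]
        simp only [hu0]
        norm_num
        linarith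
      rcases hnot with h1 | h1 | h1 | h1
      · exact side (Or.inl h1)
      · exact side (Or.inr h1)
      · have c1 : p ∉ Dom u := by
          intro hd; have := hd.2.2.1; linarith
        have e1 := hψ.bdry p b1 c1
        have e2 := psi_nonneg hε hu hψ _ b2
        rw [h1] at e1
        norm_num at e1
        rw [h1] at e2 ⊢
        have e3 : ψ p = 0 := e1
        linarith
      · have c2 : (p.1, p.2 + h) ∉ Dom u := by
          intro hd; have := hd.2.2.2; simp only at this; linarith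
        have e1 := hψ.bdry _ b2 c2
        have e2 := psi_le_one hε hu hψ _ b1
        have hg := hu.gt p.1 ⟨hp.1, hp.2.1⟩
        have e3 : ψ (p.1, p.2 + h) = 1 := by
          rw [e1]
          simp only [h1]
          rw [div_eq_one_iff_eq (by linarith)]
          ring
        linarith)
  intro p hp
  have := this p hp
  linarith

/-- the potential is nondecreasing in `z` -/
theorem psi_mono (hε : 0 < ε) (hu : Adm u) (hψ : IsPotential ε u ψ G) {x : ℝ}
    (hx : x ∈ Icc (-1:ℝ) 1) : MonotoneOn (fun z => ψ (x, z)) (Icc (-1) (u x)) := by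
  intro a ha b hb hab
  rcases hab.eq_or_lt with h | h
  · rw [h]
  · have := psi_shift hε hu hψ (h := b - a) (by linarith) (x, a)
      ⟨hx.1, hx.2, ha.1, by simp only; linarith [hb.2]⟩
    simpa using this

theorem dz_nonneg (hε : 0 < ε) (hu : Adm u) (hψ : IsPotential ε u ψ G) {p : ℝ × ℝ}
    (hp : p ∈ Dom u) : 0 ≤ dz ψ p := by
  have h1 := psi_mono hε hu hψ (x := p.1) ⟨hp.1.le, hp.2.1.le⟩
  have h2 := h1.derivWithin_nonneg (x := p.2)
  rw [derivWithin_of_mem_nhds (Icc_mem_nhds hp.2.2.1 hp.2.2.2)] at h2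
  exact h2

end Pool.Agent.H29.MEMS
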